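import Pool.Agent.H552R3.KG.Props

set_option autoImplicit false

/-! Task ACT: approximating `K(0^n)` from above (helper819). -/

namespace Pool.Agent.H552R3.KG

open Pool.Agent.Helper227 MeasureTheory Encodable
open scoped ENNReal

theorem f_act : S_ACT := by
  intro U hU
  have h1 : S1 fun x : List Bool × ℕ => List.replicate x.2 false ∈ U x.1 := s1_output hU.1.1
  have h2 : S1 fun x : ℕ × ℕ => ∃ σ : List Bool, σ.length ≤ x.2 ∧ List.replicate x.1 false ∈ U σ := by
    refine S1.ex (p := fun (x : ℕ × ℕ) (σ : List Bool) =>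
      σ.length ≤ x.2 ∧ List.replicate x.1 false ∈ U σ) ?_
    refine S1.and (S1.of_prim ?_) ?_
    · exact Primrec.nat_le.comp (Primrec.list_length.comp Primrec.snd)
        (Primrec.snd.comp Primrec.fst)
    · exact h1.comp (f := fun y : (ℕ × ℕ) × List Bool => (y.2, y.1.1))
        (Primrec.snd.pair (Primrec.fst.comp Primrec.fst))
  obtain ⟨q, hq, hm, he⟩ := h2
  refine ⟨fun n r s => q (n, r) s, ?_, fun n r s t hst h => hm (n, r) s t hst h, fun n r => ?_⟩
  · exact hq.comp (Primrec.fst.pair (Primrec.fst.comp Primrec.snd))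
      (Primrec.snd.comp Primrec.snd)
  · rw [← he (n, r)]
    constructor
    · rintro ⟨σ, hσ, hmem⟩
      exact (KU_le hmem).trans hσ
    · intro h
      obtain ⟨τ, hτ, hmem⟩ := hU.exists_min (List.replicate n false)
      exact ⟨τ, hτ.le.trans h, hmem⟩

end Pool.Agent.H552R3.KG
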