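import Pool.Agent.H552R3.KG.Props

set_option autoImplicit false

namespace Pool.Agent.H552R3.KG

open Pool.Agent.Helper227 MeasureTheory Encodable
open scoped ENNReal

theorem f_k1 : S_K1 := by
  classical
  intro P hP σ k h
  by_contra hcon
  push Not at hcon
  -- the set of extensions
  let N := σ.length + (k + 2)
  let G : Finset (List Bool) := ((allStr (k + 2)).map fun ρ => σ ++ ρ).toFinset
  have hGmem : ∀ τ, τ ∈ G ↔ σ <+: τ ∧ τ.length = N := by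
    intro τ
    simp only [G, List.mem_toFinset, List.mem_map, mem_allStr]
    constructor
    · rintro ⟨ρ, h1, rfl⟩
      exact ⟨List.prefix_append _ _, by simp [N, h1]⟩
    · rintro ⟨⟨ρ, rfl⟩, h2⟩
      refine ⟨ρ, ?_, rfl⟩
      simp only [List.length_append, N] at h2
      omega
  have hcard : G.card = 2 ^ (k + 2) := by
    simp only [G]
    rw [List.toFinset_card_of_nodup, List.length_map, length_allStr]
    exact (nodup_allStr _).map (fun a b hab => List.append_cancel_left hab)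
  have hcover : cyl σ ∩ P ⊆ ⋃ τ ∈ G, cyl τ ∩ P := by
    rintro X ⟨h1, h2⟩
    rw [mem_cyl_iff] at h1
    simp only [Set.mem_iUnion, exists_prop]
    refine ⟨pre X N, ?_, mem_cyl_pre _ _, h2⟩
    rw [hGmem]
    refine ⟨?_, by simp⟩
    have h3 : pre X σ.length <+: pre X N := pre_prefix X (Nat.le_add_right _ _)
    rwa [h1] at h3
  have hle : lam (cyl σ ∩ P) ≤ ∑ τ ∈ G, lam (cyl τ ∩ P) :=
    le_trans (measure_mono hcover) (measure_biUnion_finset_le _ _)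
  -- work in the reals
  have hreal : ∀ τ, lam (cyl τ ∩ P) = ENNReal.ofReal (lam.real (cyl τ ∩ P)) := by
    intro τ
    rw [measureReal_def, ENNReal.ofReal_toReal (measure_ne_top _ _)]
  have hpow : ∀ n : ℕ, (1 / 2 : ℝ≥0∞) ^ n = ENNReal.ofReal ((1 / 2 : ℝ) ^ n) := by
    intro n
    rw [ENNReal.ofReal_pow (by norm_num)]
    congr 1
    rw [ENNReal.ofReal_div_of_pos (by norm_num)]
    simp
  have hsum : (1 / 2 : ℝ) ^ (σ.length + (k + 1)) ≤ ∑ τ ∈ G, lam.real (cyl τ ∩ P) := by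
    have h1 := le_trans h hle
    rw [hpow, Finset.sum_congr rfl fun τ _ => hreal τ,
      ← ENNReal.ofReal_sum_of_nonneg fun τ _ => measureReal_nonneg] at h1
    exact (ENNReal.ofReal_le_ofReal_iff (Finset.sum_nonneg fun τ _ => measureReal_nonneg)).1 h1
  have hbnd : ∀ τ ∈ G, lam.real (cyl τ ∩ P) ≤ (1 / 2 : ℝ) ^ N := by
    intro τ hτ
    have h1 : lam (cyl τ ∩ P) ≤ (1 / 2 : ℝ≥0∞) ^ N := by
      refine le_trans (measure_mono Set.inter_subset_left) ?_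
      rw [lam_cyl, ((hGmem τ).1 hτ).2]
    rw [hreal, hpow] at h1
    exact (ENNReal.ofReal_le_ofReal_iff (by positivity)).1 h1
  have hsmall : ∀ τ ∈ G, ¬ ((1 / 2 : ℝ≥0∞) ^ (τ.length + (k + 2)) ≤ lam (cyl τ ∩ P)) →
      lam.real (cyl τ ∩ P) < (1 / 2 : ℝ) ^ (N + (k + 2)) := by
    intro τ hτ h1
    rw [not_le, hreal, hpow, ((hGmem τ).1 hτ).2] at h1
    exact (ENNReal.ofReal_lt_ofReal_iff (by positivity)).1 h1
  have hGne : G.Nonempty := by
    rw [← Finset.card_pos, hcard]; positivity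
  -- at most one good
  obtain ⟨τ₀, hτ₀, hall⟩ : ∃ τ₀ ∈ G, ∀ τ ∈ G, τ ≠ τ₀ →
      ¬ ((1 / 2 : ℝ≥0∞) ^ (τ.length + (k + 2)) ≤ lam (cyl τ ∩ P)) := by
    by_cases hex : ∃ τ ∈ G, (1 / 2 : ℝ≥0∞) ^ (τ.length + (k + 2)) ≤ lam (cyl τ ∩ P)
    · obtain ⟨τ₀, h1, h2⟩ := hex
      refine ⟨τ₀, h1, fun τ h3 h4 h5 => ?_⟩
      have := hcon τ₀ τ ((hGmem _).1 h1).2 ((hGmem _).1 h3).2 ((hGmem _).1 h1).1
        ((hGmem _).1 h3).1 (Ne.symm h4) h2
      exact absurd h5 (not_le.2 this)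
    · push Not at hex
      obtain ⟨τ₀, h1⟩ := hGne
      exact ⟨τ₀, h1, fun τ h3 _ => not_le.2 (hex τ h3)⟩
  have hlt : ∑ τ ∈ G, lam.real (cyl τ ∩ P) < (1 / 2 : ℝ) ^ (σ.length + (k + 1)) := by
    rw [← Finset.add_sum_erase _ _ hτ₀]
    have hc : (G.erase τ₀).card = 2 ^ (k + 2) - 1 := by
      rw [Finset.card_erase_of_mem hτ₀, hcard]
    have h1 : ∑ τ ∈ G.erase τ₀, lam.real (cyl τ ∩ P) ≤
        ((2 ^ (k + 2) - 1 : ℕ) : ℝ) * (1 / 2 : ℝ) ^ (N + (k + 2)) := by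
      rw [← hc, ← nsmul_eq_mul]
      refine Finset.sum_le_card_nsmul _ _ _ fun τ hτ => ?_
      rw [Finset.mem_erase] at hτ
      exact le_of_lt (hsmall τ hτ.2 (hall τ hτ.2 hτ.1))
    have h2 := hbnd τ₀ hτ₀
    have h3 : ((2 ^ (k + 2) - 1 : ℕ) : ℝ) = 2 ^ (k + 2) - 1 := by
      rw [Nat.cast_sub Nat.one_le_two_pow]; push_cast; ring
    rw [h3] at h1
    have h4 : (1 / 2 : ℝ) ^ (N + (k + 2)) = (1 / 2 : ℝ) ^ N * (1 / 2 : ℝ) ^ (k + 2) := pow_add _ _ _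
    have h5 : (2 : ℝ) ^ (k + 2) * (1 / 2 : ℝ) ^ (k + 2) = 1 := by
      rw [← mul_pow]; norm_num
    have h6 : (0 : ℝ) < (1 / 2 : ℝ) ^ (N + (k + 2)) := by positivity
    have h7 : (1 / 2 : ℝ) ^ (σ.length + (k + 1)) = 2 * (1 / 2 : ℝ) ^ N := by
      have : N = (σ.length + (k + 1)) + 1 := by simp only [N]; ring
      rw [this, pow_succ]; ring
    have h8 : (2 ^ (k + 2) - 1 : ℝ) * (1 / 2 : ℝ) ^ (N + (k + 2)) =
        (1 / 2 : ℝ) ^ N - (1 / 2 : ℝ) ^ (N + (k + 2)) := by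
      rw [h4]
      linear_combination ((1 / 2 : ℝ) ^ N) * h5
    rw [h8] at h1
    rw [h7]
    linarith
  exact absurd hsum (not_le.2 hlt)

end Pool.Agent.H552R3.KG
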