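import Pool.Agent.H552R3.KG.Props

set_option autoImplicit false

namespace Pool.Agent.H552R3.KG

open Pool.Agent.Helper227 MeasureTheory Encodable
open scoped ENNReal

theorem ell_succ (k : ℕ) : ell (k + 1) = ell k + (k + 2) := by
  unfold ell
  have h : (k + 1) * (k + 1 + 3) = k * (k + 3) + (k + 2) * 2 := by ring
  rw [h, Nat.add_mul_div_right _ _ (by norm_num)]

theorem f_k2 (h : S_K1) : S_K2 := by
  classical
  intro P hP hP2 A
  let G : ℕ → List Bool → Prop := fun k σ => σ.length = ell k ∧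
    (1 / 2 : ℝ≥0∞) ^ (σ.length + (k + 1)) ≤ lam (cyl σ ∩ P)
  have hstep : ∀ k σ, G k σ → ∃ τ₁ τ₂, Ext P σ k τ₁ ∧ Ext P σ k τ₂ ∧ τ₁ ≠ τ₂ := by
    rintro k σ ⟨h1, h2⟩
    obtain ⟨τ₁, τ₂, a1, a2, a3, a4, a5, a6, a7⟩ := h P hP σ k h2
    refine ⟨τ₁, τ₂, ⟨?_, a3, a6⟩, ⟨?_, a4, a7⟩, a5⟩
    · rw [a1, h1, ell_succ]
    · rw [a2, h1, ell_succ]
  have hmin : ∀ k σ, G k σ → ∃ τ, Ext P σ k τ ∧ (∀ τ', Ext P σ k τ' → encode τ ≤ encode τ') ∧
      ∃ τ', Ext P σ k τ' ∧ encode τ < encode τ' := by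
    intro k σ hG
    obtain ⟨τ₁, τ₂, b1, b2, b3⟩ := hstep k σ hG
    have hex : ∃ n, ∃ τ, Ext P σ k τ ∧ encode τ = n := ⟨_, τ₁, b1, rfl⟩
    obtain ⟨τ, c1, c2⟩ := Nat.find_spec hex
    have c3 : ∀ τ', Ext P σ k τ' → encode τ ≤ encode τ' := by
      intro τ' hτ'
      rw [c2]
      exact Nat.find_min' hex ⟨τ', hτ', rfl⟩
    refine ⟨τ, c1, c3, ?_⟩
    by_cases hτ : τ = τ₁
    · refine ⟨τ₂, b2, lt_of_le_of_ne (c3 _ b2) fun he => b3 ?_⟩
      rw [← hτ]; exact encode_injective he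
    · exact ⟨τ₁, b1, lt_of_le_of_ne (c3 _ b1) fun he => hτ (encode_injective he)⟩
  have hmax : ∀ k σ, G k σ → ∃ τ, Ext P σ k τ ∧ (∀ τ', Ext P σ k τ' → encode τ' ≤ encode τ) ∧
      ∃ τ', Ext P σ k τ' ∧ encode τ' < encode τ := by
    intro k σ hG
    obtain ⟨τ₁, τ₂, b1, b2, b3⟩ := hstep k σ hG
    have hfin : ∃ τ ∈ (allStr (ell (k + 1))).toFinset.filter (fun τ => Ext P σ k τ),
        ∀ τ' ∈ (allStr (ell (k + 1))).toFinset.filter (fun τ => Ext P σ k τ),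
          encode τ' ≤ encode τ := by
      refine Finset.exists_max_image _ (fun τ => encode τ) ⟨τ₁, ?_⟩
      rw [Finset.mem_filter, List.mem_toFinset, mem_allStr]
      exact ⟨b1.1, b1⟩
    obtain ⟨τ, c1, c2⟩ := hfin
    rw [Finset.mem_filter] at c1
    have c3 : ∀ τ', Ext P σ k τ' → encode τ' ≤ encode τ := by
      intro τ' hτ'
      refine c2 τ' ?_
      rw [Finset.mem_filter, List.mem_toFinset, mem_allStr]
      exact ⟨hτ'.1, hτ'⟩
    refine ⟨τ, c1.2, c3, ?_⟩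
    by_cases hτ : τ = τ₁
    · refine ⟨τ₂, b2, lt_of_le_of_ne (c3 _ b2) fun he => b3 ?_⟩
      rw [← hτ]; exact (encode_injective he).symm
    · exact ⟨τ₁, b1, lt_of_le_of_ne (c3 _ b1) fun he => hτ (encode_injective he).symm⟩
  have hext : ∀ k σ τ, Ext P σ k τ → G (k + 1) τ := by
    rintro k σ τ ⟨h1, _, h3⟩
    exact ⟨h1, h3⟩
  choose! mn mn1 mn2 mn3 using hmin
  choose! mx mx1 mx2 mx3 using hmax
  let sq : ℕ → List Bool := fun k => Nat.rec [] (fun k σ => if A k = true then mx k σ else mn k σ) k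
  have hs : ∀ k, sq (k + 1) = if A k = true then mx k (sq k) else mn k (sq k) := fun k => rfl
  have hG : ∀ k, G k (sq k) := by
    intro k
    induction k with
    | zero =>
      refine ⟨rfl, ?_⟩
      have h0 : cyl (sq 0) = Set.univ := by
        ext X
        rw [mem_cyl_iff]
        simp [sq, pre]
      rw [h0, Set.univ_inter]
      simpa [sq] using hP2
    | succ k ih =>
      rw [hs]
      split_ifs with hA
      · exact hext _ _ _ (mx1 _ _ ih)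
      · exact hext _ _ _ (mn1 _ _ ih)
  refine ⟨sq, fun k => (hG k).1, fun k => ?_, fun k hA => ?_, fun k hA => ?_⟩
  · rw [hs]
    split_ifs with hA
    · exact mx1 _ _ (hG k)
    · exact mn1 _ _ (hG k)
  · rw [hs, if_neg (by simp [hA])]
    exact ⟨mn2 _ _ (hG k), mn3 _ _ (hG k)⟩
  · rw [hs, if_pos hA]
    exact ⟨mx2 _ _ (hG k), mx3 _ _ (hG k)⟩

end Pool.Agent.H552R3.KG
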