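import Pool.Agent.H552R3.KG.Props

set_option autoImplicit false

/-! Task K3: badness is c.e. relative to the oracle. -/

namespace Pool.Agent.H552R3.KG

open Pool.Agent.Helper227 MeasureTheory Encodable
open scoped ENNReal

theorem K3_arith {x y p q : ℝ≥0∞} (h : x + y = p + q) (hp : p ≠ ⊤) (hy : y ≠ ⊤) :
    p < x ↔ y < q := by
  constructor
  · intro h1
    by_contra h2
    rw [not_lt] at h2
    have h3 : p + q < x + y := by
      have hq : q ≠ ⊤ := ne_top_of_le_ne_top hy h2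
      exact ENNReal.add_lt_add_of_lt_of_le hq h1 h2
    rw [h] at h3
    exact lt_irrefl _ h3
  · intro h1
    by_contra h2
    rw [not_lt] at h2
    have h3 : x + y < p + q := ENNReal.add_lt_add_of_le_of_lt (ne_top_of_le_ne_top hp h2) h2 h1
    rw [h] at h3
    exact lt_irrefl _ h3

theorem K3_num (L k : ℕ) :
    (((2 ^ (k + 1) - 1 : ℕ) : ℝ≥0∞)) / ((2 ^ (L + (k + 1)) : ℕ) : ℝ≥0∞) +
      (1 / 2 : ℝ≥0∞) ^ (L + (k + 1)) = (1 / 2 : ℝ≥0∞) ^ L := by
  have h2 : (2 : ℝ≥0∞) ^ (L + (k + 1)) ≠ 0 := by positivity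
  have h3 : (2 : ℝ≥0∞) ^ (L + (k + 1)) ≠ ⊤ := ENNReal.pow_ne_top (by norm_num)
  have h4 : (1 / 2 : ℝ≥0∞) ^ (L + (k + 1)) = 1 / ((2 ^ (L + (k + 1)) : ℕ) : ℝ≥0∞) := by
    rw [one_div, ← ENNReal.inv_pow, one_div]
    norm_cast
  rw [h4, ENNReal.div_add_div_same]
  have h5 : (((2 ^ (k + 1) - 1 : ℕ) : ℝ≥0∞)) + 1 = (2 : ℝ≥0∞) ^ (k + 1) := by
    have h6 : (2 ^ (k + 1) - 1 : ℕ) + 1 = 2 ^ (k + 1) :=
      Nat.sub_add_cancel Nat.one_le_two_pow
    have h7 : (((2 ^ (k + 1) - 1 : ℕ) + 1 : ℕ) : ℝ≥0∞) = ((2 ^ (k + 1) : ℕ) : ℝ≥0∞) := by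
      rw [h6]
    push_cast at h7 ⊢
    exact h7
  rw [h5]
  have h8 : ((2 ^ (L + (k + 1)) : ℕ) : ℝ≥0∞) = (2 : ℝ≥0∞) ^ L * 2 ^ (k + 1) := by
    push_cast
    rw [pow_add]
  rw [h8, one_div, ← ENNReal.inv_pow]
  have h9 : (2 : ℝ≥0∞) ^ (k + 1) ≠ 0 := by positivity
  have h10 : (2 : ℝ≥0∞) ^ (k + 1) ≠ ⊤ := ENNReal.pow_ne_top (by norm_num)
  have h11 : (2 : ℝ≥0∞) ^ L ≠ 0 := by positivity
  have h12 : (2 : ℝ≥0∞) ^ L ≠ ⊤ := ENNReal.pow_ne_top (by norm_num)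
  rw [ENNReal.div_eq_inv_mul, ENNReal.mul_inv (Or.inl h11) (Or.inl h12), mul_assoc,
    ENNReal.inv_mul_cancel h9 h10, mul_one]

theorem f_k3 : S_K3 := by
  intro E hE mE
  refine ⟨fun x => (((2 ^ (x.2.2 + 1) - 1 : ℕ) : ℝ≥0∞)) /
      ((2 ^ (x.2.1.length + (x.2.2 + 1)) : ℕ) : ℝ≥0∞) <
      lam {X | ∃ t, x.2.1 = (pre X t).take x.2.1.length ∧ E (x.1, 1, pre X t)}, ?_, ?_, ?_⟩
  · refine s1_measure_gt (α := List Bool × List Bool × ℕ)
      (P := fun x ζ => x.2.1 = ζ.take x.2.1.length ∧ E (x.1, 1, ζ))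
      (a := fun x => 2 ^ (x.2.2 + 1) - 1) (b := fun x => 2 ^ (x.2.1.length + (x.2.2 + 1)))
      ?_ ?_ ?_ (fun x => by positivity)
    · refine S1.and (S1.of_prim ?_) (hE.comp ?_)
      · exact Primrec.eq.comp (Primrec.fst.comp (Primrec.snd.comp Primrec.fst))
          (Primrec.list_take.comp (Primrec.list_length.comp
            (Primrec.fst.comp (Primrec.snd.comp Primrec.fst))) Primrec.snd)
      · exact (Primrec.fst.comp Primrec.fst).pair ((Primrec.const 1).pair Primrec.snd)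
    · exact Primrec.nat_sub.comp (primrec_pow.comp (Primrec.const 2)
        (Primrec.succ.comp (Primrec.snd.comp Primrec.snd))) (Primrec.const 1)
    · exact primrec_pow.comp (Primrec.const 2) (Primrec.nat_add.comp
        (Primrec.list_length.comp (Primrec.fst.comp Primrec.snd))
        (Primrec.succ.comp (Primrec.snd.comp Primrec.snd)))
  · intro α α' τ k h h1
    refine lt_of_lt_of_le h1 (measure_mono ?_)
    rintro X ⟨t, h2, h3⟩
    exact ⟨t, h2, mE _ _ _ _ _ h (List.prefix_refl _) h3⟩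
  · intro B τ k
    set W : ℕ → Set (ℕ → Bool) := fun s =>
      {X | ∃ t, τ = (pre X t).take τ.length ∧ E (pre B s, 1, pre X t)} with hW
    have hWm : Monotone W := by
      rintro s s' h X ⟨t, h2, h3⟩
      exact ⟨t, h2, mE _ _ _ _ _ (pre_prefix B h) (List.prefix_refl _) h3⟩
    have hWU : (⋃ s, W s) = cyl τ ∩ UE E B 1 := by
      ext X
      rw [Set.mem_iUnion]
      constructor
      · rintro ⟨s, t, h2, h3⟩
        refine ⟨?_, s, t, h3⟩
        rw [mem_cyl_iff]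
        have h4 : τ <+: pre X t := List.prefix_iff_eq_take.2 h2
        exact (pre_eq_of_prefix h4).symm
      · rintro ⟨h1, s, t, h3⟩
        rw [mem_cyl_iff] at h1
        refine ⟨s, max t τ.length, ?_, ?_⟩
        · rw [take_pre _ _ _ (le_max_right _ _), h1]
        · exact mE _ _ _ _ _ (List.prefix_refl _) (pre_prefix X (le_max_left _ _)) h3
    have h1 : (∃ s, (((2 ^ (k + 1) - 1 : ℕ) : ℝ≥0∞)) / ((2 ^ (τ.length + (k + 1)) : ℕ) : ℝ≥0∞) <
        lam (W s)) ↔ (((2 ^ (k + 1) - 1 : ℕ) : ℝ≥0∞)) / ((2 ^ (τ.length + (k + 1)) : ℕ) : ℝ≥0∞) <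
        lam (cyl τ ∩ UE E B 1) := by
      rw [← hWU, hWm.measure_iUnion, lt_iSup_iff]
    refine h1.trans ?_
    have hadd : lam (cyl τ ∩ UE E B 1) + lam (cyl τ ∩ (UE E B 1)ᶜ) = (1 / 2) ^ τ.length := by
      rw [← lam_cyl τ, ← Set.sdiff_eq]
      exact measure_inter_add_sdiff _ (measurableSet_UE E B 1)
    have hnum := K3_num τ.length k
    apply K3_arith (hadd.trans hnum.symm)
    · apply ENNReal.div_ne_top (ENNReal.natCast_ne_top _)
      positivity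
    · exact measure_ne_top _ _

end Pool.Agent.H552R3.KG
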