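import Pool.Agent.H552R3.KG.Props

set_option autoImplicit false

namespace Pool.Agent.H552R3.KG

open Pool.Agent.Helper227 MeasureTheory Encodable
open scoped ENNReal

namespace K5

theorem primrec_ell : Primrec ell := by
  unfold ell
  exact Primrec.nat_div.comp (Primrec.nat_mul.comp Primrec.id
    (Primrec.nat_add.comp Primrec.id (Primrec.const 3))) (Primrec.const 2)

theorem ell_mono (k : ℕ) : ell k ≤ ell (k + 1) := by
  unfold ell
  apply Nat.div_le_div_right
  nlinarith

theorem rd_congr {z z' : List Bool} (h : z <+: z') {g : ℕ → ℕ} {t : ℕ}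
    (hg : ∀ i < t, g i < z.length) : rd z' g t = rd z g t := by
  unfold rd
  refine List.map_congr_left fun i hi => ?_
  rw [List.mem_range] at hi
  obtain ⟨w, rfl⟩ := h
  rw [List.getD_append _ _ _ _ (hg i hi)]

/-- even part -/
def ev (z : List Bool) (t : ℕ) : List Bool := rd z (fun i => 2 * i) t

/-- odd part -/
def od (z : List Bool) (t : ℕ) : List Bool := rd z (fun i => 2 * i + 1) t

theorem primrec_ev {α : Type*} [Primcodable α] {f : α → List Bool} {t : α → ℕ}
    (hf : Primrec f) (ht : Primrec t) : Primrec fun a => ev (f a) (t a) := by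
  unfold ev
  exact primrec_rd (g := fun _ i => 2 * i) hf
    (Primrec.nat_mul.comp (Primrec.const 2) Primrec.snd) ht

theorem primrec_od {α : Type*} [Primcodable α] {f : α → List Bool} {t : α → ℕ}
    (hf : Primrec f) (ht : Primrec t) : Primrec fun a => od (f a) (t a) := by
  unfold od
  exact primrec_rd (g := fun _ i => 2 * i + 1) hf
    (Primrec.succ.comp (Primrec.nat_mul.comp (Primrec.const 2) Primrec.snd)) ht

theorem ev_pre {B R : ℕ → Bool} {m t : ℕ} (h : 2 * t ≤ m) : ev (pre (join B R) m) t = pre B t := by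
  unfold ev
  rw [rd_pre (by intro i hi; omega)]
  congr 1
  funext i
  exact join_even B R i

theorem od_pre {B R : ℕ → Bool} {m t : ℕ} (h : 2 * t ≤ m) : od (pre (join B R) m) t = pre R t := by
  unfold od
  rw [rd_pre (by intro i hi; omega)]
  congr 1
  funext i
  exact join_odd B R i

/-- the comparison -/
def Cm (b : Bool) (τ q : List Bool) : Prop :=
  (b = false ∧ encode τ < encode q) ∨ (b = true ∧ encode q < encode τ)

/-- the predicate -/
def EE (Rf : List Bool × List Bool × ℕ → Prop) (x : List Bool × ℕ × Bool) : Prop :=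
  ∃ s : ℕ, (2 * s ≤ x.1.length ∧ 2 * ell (x.2.1 + 1) ≤ x.1.length) ∧
    ∀ τ ∈ allStr (ell (x.2.1 + 1)),
      ¬ (od x.1 (ell x.2.1) = τ.take (ell x.2.1) ∧ Cm x.2.2 τ (od x.1 (ell (x.2.1 + 1)))) ∨
        Rf (ev x.1 s, τ, x.2.1 + 1)

theorem s1_EE {Rf : List Bool × List Bool × ℕ → Prop} (hRf : S1 Rf) : S1 (EE Rf) := by
  unfold EE
  refine S1.ex (S1.and (S1.of_prim (PrimrecPred.and ?_ ?_)) (S1.all_mem
    (f := fun x : (List Bool × ℕ × Bool) × ℕ => allStr (ell (x.1.2.1 + 1)))
    (S1.or (S1.of_prim (PrimrecPred.not (PrimrecPred.and ?_ ?_))) (hRf.comp ?_)) ?_))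
  · exact Primrec.nat_le.comp (Primrec.nat_mul.comp (Primrec.const 2) Primrec.snd)
      (Primrec.list_length.comp (Primrec.fst.comp Primrec.fst))
  · exact Primrec.nat_le.comp (Primrec.nat_mul.comp (Primrec.const 2)
      (primrec_ell.comp (Primrec.succ.comp (Primrec.fst.comp (Primrec.snd.comp Primrec.fst)))))
      (Primrec.list_length.comp (Primrec.fst.comp Primrec.fst))
  · refine Primrec.eq.comp (primrec_od ?_ ?_) (Primrec.list_take.comp ?_ Primrec.snd)
    · exact Primrec.fst.comp (Primrec.fst.comp Primrec.fst)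
    · exact primrec_ell.comp (Primrec.fst.comp (Primrec.snd.comp (Primrec.fst.comp Primrec.fst)))
    · exact primrec_ell.comp (Primrec.fst.comp (Primrec.snd.comp (Primrec.fst.comp Primrec.fst)))
  · have hb : Primrec fun x : ((List Bool × ℕ × Bool) × ℕ) × List Bool => x.1.1.2.2 :=
      Primrec.snd.comp (Primrec.snd.comp (Primrec.fst.comp Primrec.fst))
    have hq : Primrec fun x : ((List Bool × ℕ × Bool) × ℕ) × List Bool =>
        od x.1.1.1 (ell (x.1.1.2.1 + 1)) :=
      primrec_od (Primrec.fst.comp (Primrec.fst.comp Primrec.fst))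
        (primrec_ell.comp (Primrec.succ.comp
          (Primrec.fst.comp (Primrec.snd.comp (Primrec.fst.comp Primrec.fst)))))
    unfold Cm
    refine PrimrecPred.or (PrimrecPred.and (Primrec.eq.comp hb (Primrec.const false)) ?_)
      (PrimrecPred.and (Primrec.eq.comp hb (Primrec.const true)) ?_)
    · exact Primrec.nat_lt.comp (Primrec.encode.comp Primrec.snd) (Primrec.encode.comp hq)
    · exact Primrec.nat_lt.comp (Primrec.encode.comp hq) (Primrec.encode.comp Primrec.snd)
  · exact (primrec_ev (Primrec.fst.comp (Primrec.fst.comp Primrec.fst))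
      (Primrec.snd.comp Primrec.fst)).pair (Primrec.snd.pair (Primrec.succ.comp
        (Primrec.fst.comp (Primrec.snd.comp (Primrec.fst.comp Primrec.fst)))))
  · exact primrec_allStr.comp (primrec_ell.comp (Primrec.succ.comp
      (Primrec.fst.comp (Primrec.snd.comp Primrec.fst))))

end K5

open K5 in
theorem f_K5 : S_K5 := by
  intro A B R Rf hRf mRf hfalse htrue
  rw [tLe_iff]
  refine ⟨EE Rf, s1_EE hRf, ?_, ?_⟩
  · rintro z z' k b hz ⟨s, ⟨h1, h2⟩, h3⟩
    have hl := hz.length_le
    simp only at h1 h2 h3
    refine ⟨s, ⟨by simp only; omega, by simp only; omega⟩, ?_⟩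
    have hm := ell_mono k
    have e1 : od z' (ell k) = od z (ell k) := rd_congr hz (by intro i hi; omega)
    have e2 : od z' (ell (k + 1)) = od z (ell (k + 1)) := rd_congr hz (by intro i hi; omega)
    have e3 : ev z' s = ev z s := rd_congr hz (by intro i hi; omega)
    simp only
    rw [e1, e2, e3]
    exact h3
  · have key : ∀ (k s m : ℕ) (b : Bool), 2 * s ≤ m → 2 * ell (k + 1) ≤ m →
        ((∀ τ ∈ allStr (ell (k + 1)),
          ¬ (od (pre (join B R) m) (ell k) = τ.take (ell k) ∧
            Cm b τ (od (pre (join B R) m) (ell (k + 1)))) ∨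
          Rf (ev (pre (join B R) m) s, τ, k + 1)) ↔
        ∀ τ : List Bool, τ.length = ell (k + 1) → pre R (ell k) <+: τ →
          Cm b τ (pre R (ell (k + 1))) → Rf (pre B s, τ, k + 1)) := by
      intro k s m b h1 h2
      have hm := ell_mono k
      rw [ev_pre h1, od_pre h2, od_pre (by omega)]
      constructor
      · intro h τ hτ hp hc
        rcases h τ (mem_allStr.2 hτ) with h3 | h3
        · exfalso
          apply h3
          refine ⟨?_, hc⟩
          rw [List.prefix_iff_eq_take, length_pre] at hp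
          exact hp
        · exact h3
      · intro h τ hτ
        by_cases hc : pre R (ell k) = τ.take (ell k) ∧ Cm b τ (pre R (ell (k + 1)))
        · right
          refine h τ (mem_allStr.1 hτ) ?_ hc.2
          rw [List.prefix_iff_eq_take, length_pre]
          exact hc.1
        · left
          exact hc
    have hcf : ∀ τ q : List Bool, Cm false τ q ↔ encode τ < encode q := by
      intro τ q; simp [Cm]
    have hct : ∀ τ q : List Bool, Cm true τ q ↔ encode q < encode τ := by
      intro τ q; simp [Cm]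
    have hb : ∀ (k : ℕ) (b : Bool), A k = b ↔ ∃ s, ∀ τ : List Bool, τ.length = ell (k + 1) →
        pre R (ell k) <+: τ → Cm b τ (pre R (ell (k + 1))) → Rf (pre B s, τ, k + 1) := by
      intro k b
      cases b with
      | false => simp only [hcf]; exact hfalse k
      | true => simp only [hct]; exact htrue k
    intro k b
    rw [hb]
    constructor
    · rintro ⟨s, hs⟩
      refine ⟨2 * s + 2 * ell (k + 1), s, ⟨?_, ?_⟩, ?_⟩
      · simp only [length_pre]; omega
      · simp only [length_pre]; omega
      · exact (key k s _ b (by omega) (by omega)).2 hs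
    · rintro ⟨m, s, ⟨h1, h2⟩, h3⟩
      simp only [length_pre] at h1 h2
      exact ⟨s, (key k s m b h1 h2).1 h3⟩

end Pool.Agent.H552R3.KG
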