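import Pool.Agent.H552R3.KG.Props

set_option autoImplicit false

namespace Pool.Agent.H552R3.KG

open Pool.Agent.Helper227 MeasureTheory Encodable
open scoped ENNReal

theorem f_OUT : S_OUT := by
  classical
  intro A X hAX
  obtain ⟨E, ⟨q, hq, qm, qe⟩, mE, eE⟩ := tLe_iff.1 hAX
  -- monotone version of `q`
  obtain ⟨Q, hQdef⟩ : ∃ Q : (List Bool × ℕ) → Bool → Prop, Q = fun x b =>
      ∃ t < x.1.length + 1, ∃ m < x.1.length + 1, q (x.1.take t, x.2, b) m := ⟨_, rfl⟩
  have hQ : PrimrecRel Q := by
    rw [hQdef]
    have hlen : Primrec fun x : (List Bool × ℕ) × Bool => x.1.1.length + 1 :=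
      Primrec.succ.comp (Primrec.list_length.comp (Primrec.fst.comp Primrec.fst))
    refine PP.ex_lt (α := (List Bool × ℕ) × Bool) (f := fun x => x.1.1.length + 1)
      (p := fun x t => ∃ m < x.1.1.length + 1, q (x.1.1.take t, x.1.2, x.2) m) ?_ hlen
    refine PP.ex_lt (α := ((List Bool × ℕ) × Bool) × ℕ) (f := fun y => y.1.1.1.length + 1)
      (p := fun y m => q (y.1.1.1.take y.2, y.1.1.2, y.1.2) m) ?_ (hlen.comp Primrec.fst)
    refine hq.comp ?_ Primrec.snd
    have e1 : Primrec fun z : (((List Bool × ℕ) × Bool) × ℕ) × ℕ => z.1 := Primrec.fst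
    have e2 : Primrec fun z : (((List Bool × ℕ) × Bool) × ℕ) × ℕ => z.1.1 := Primrec.fst.comp e1
    have e3 : Primrec fun z : (((List Bool × ℕ) × Bool) × ℕ) × ℕ => z.1.1.1 := Primrec.fst.comp e2
    exact (Primrec.list_take.comp (Primrec.snd.comp e1) (Primrec.fst.comp e3)).pair
      ((Primrec.snd.comp e3).pair (Primrec.snd.comp e2))
  have hQs : ∀ k i b, Q (pre X k, i) b → A i = b := by
    intro k i b h
    rw [hQdef] at h
    obtain ⟨t, ht, m, -, h⟩ := h
    rw [length_pre] at ht
    simp only at h
    rw [take_pre X k t (by omega)] at h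
    exact (eE i b).2 ⟨t, (qe _).2 ⟨m, h⟩⟩
  have hQc : ∀ i, ∃ k₀, ∀ k ≥ k₀, Q (pre X k, i) (A i) := by
    intro i
    obtain ⟨s, hs⟩ := (eE i (A i)).1 rfl
    obtain ⟨m, hm⟩ := (qe _).1 hs
    refine ⟨max s m, fun k hk => ?_⟩
    rw [hQdef]
    have h1 := le_trans (le_max_left s m) hk
    have h2 := le_trans (le_max_right s m) hk
    refine ⟨s, by simp only [length_pre]; omega, m, by simp only [length_pre]; omega, ?_⟩
    simp only
    rw [take_pre X k s h1]
    exact hm
  -- the step function
  obtain ⟨step, hstep⟩ : ∃ step : List Bool → List Bool → List Bool, step = fun z l =>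
      if Q (z, l.length) false then l ++ [false] else
        if Q (z, l.length) true then l ++ [true] else l := ⟨_, rfl⟩
  obtain ⟨F, hF0, hFs, hFp⟩ : ∃ F : List Bool → ℕ → List Bool, (∀ z, F z 0 = []) ∧
      (∀ z n, F z (n + 1) = step z (F z n)) ∧ Primrec fun z => F z z.length := by
    refine ⟨fun z n => Nat.rec [] (fun _ l => step z l) n, fun _ => rfl, fun _ _ => rfl, ?_⟩
    refine Primrec.nat_rec' (f := fun z : List Bool => z.length) (g := fun _ => ([] : List Bool))
      (h := fun z x => step z x.2) Primrec.list_length (Primrec.const _) ?_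
    rw [hstep]
    have e0 : Primrec fun y : List Bool × (ℕ × List Bool) => y.2.2 := Primrec.snd.comp Primrec.snd
    have e1 : Primrec fun y : List Bool × (ℕ × List Bool) => (y.1, y.2.2.length) :=
      Primrec.fst.pair (Primrec.list_length.comp e0)
    have e2 : ∀ b : Bool, PrimrecPred fun y : List Bool × (ℕ × List Bool) =>
        Q (y.1, y.2.2.length) b := fun b => hQ.comp e1 (Primrec.const b)
    have e3 : ∀ b : Bool, Primrec fun y : List Bool × (ℕ × List Bool) => y.2.2 ++ [b] :=
      fun b => Primrec.list_append.comp e0 (Primrec.const _)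
    exact Primrec.ite (e2 false) (e3 false) (Primrec.ite (e2 true) (e3 true) e0)
  have hcorr : ∀ k n, ∃ n', n' ≤ n ∧ F (pre X k) n = pre A n' := by
    intro k n
    induction n with
    | zero => exact ⟨0, le_rfl, by rw [hF0]; rfl⟩
    | succ n ih =>
      obtain ⟨n', hn', h⟩ := ih
      rw [hFs, h, hstep]
      simp only [length_pre]
      by_cases h1 : Q (pre X k, n') false
      · rw [if_pos h1]
        refine ⟨n' + 1, by omega, ?_⟩
        rw [pre_succ, hQs _ _ _ h1]
      · rw [if_neg h1]
        by_cases h2 : Q (pre X k, n') true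
        · rw [if_pos h2]
          refine ⟨n' + 1, by omega, ?_⟩
          rw [pre_succ, hQs _ _ _ h2]
        · rw [if_neg h2]
          exact ⟨n', by omega, rfl⟩
  have hmono : ∀ z m n, m ≤ n → F z m <+: F z n := by
    intro z m n h
    induction h with
    | refl => exact List.prefix_refl _
    | step _ ih =>
      refine ih.trans ?_
      rw [hFs, hstep]
      simp only
      split_ifs
      · exact List.prefix_append _ _
      · exact List.prefix_append _ _
      · exact List.prefix_refl _
  refine ⟨fun z => F z z.length, hFp, fun k => ?_, fun n => ?_⟩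
  · simp only [length_pre]
    exact hcorr k k
  · choose g hg using hQc
    obtain ⟨K, hK⟩ : ∃ K, ∀ i < n, g i ≤ K := by
      refine ⟨(Finset.range n).sup g, fun i hi => ?_⟩
      exact Finset.le_sup (f := g) (Finset.mem_range.2 hi)
    refine ⟨max n K, fun k hk => ?_⟩
    have h1 := le_trans (le_max_left n K) hk
    have h2 := le_trans (le_max_right n K) hk
    have h3 : ∀ j, j ≤ n → F (pre X k) j = pre A j := by
      intro j
      induction j with
      | zero => intro _; rw [hF0]; rfl
      | succ j ih =>
        intro hj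
        have h4 := ih (by omega)
        have h5 := hg j k (le_trans (hK j (by omega)) h2)
        rw [hFs, h4, hstep]
        simp only [length_pre]
        by_cases h6 : Q (pre X k, j) false
        · rw [if_pos h6, pre_succ, hQs _ _ _ h6]
        · have h7 : A j = true := by
            cases h8 : A j with
            | false => rw [h8] at h5; exact absurd h5 h6
            | true => rfl
          rw [h7] at h5
          rw [if_neg h6, if_pos h5, pre_succ, h7]
    simp only [length_pre]
    rw [← h3 n le_rfl]
    exact hmono _ _ _ h1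

end Pool.Agent.H552R3.KG
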