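import Pool.Agent.H552R3.KG.Props

set_option autoImplicit false

/-! Task PROC: the eating process. -/

namespace Pool.Agent.H552R3.KG

open Pool.Agent.Helper227 MeasureTheory Encodable
open scoped ENNReal

namespace PROCx

/-! ### an enumeration of the strings with nondecreasing lengths -/

def nx : List Bool → List Bool
  | [] => [false]
  | false :: l => true :: l
  | true :: l => false :: nx l

theorem nx_eq (l : List Bool) : nx l = List.recOn l [false]
    (fun b l IH => if b = true then false :: IH else true :: l) := by
  induction l with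
  | nil => rfl
  | cons b l ih => cases b <;> simp [nx, ih]

theorem primrec_nx : Primrec nx := by
  refine (Primrec.list_rec (f := fun l : List Bool => l) (g := fun _ => ([false] : List Bool))
    (h := fun _ p => if p.1 = true then false :: p.2.2 else true :: p.2.1) Primrec.id
    (Primrec.const _) ?_).of_eq fun l => (nx_eq l).symm
  refine Primrec.ite ?_ ?_ ?_
  · exact Primrec.eq.comp (Primrec.fst.comp Primrec.snd) (Primrec.const true)
  · exact Primrec.list_cons.comp (Primrec.const false)
      (Primrec.snd.comp (Primrec.snd.comp Primrec.snd))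
  · exact Primrec.list_cons.comp (Primrec.const true)
      (Primrec.fst.comp (Primrec.snd.comp Primrec.snd))

theorem length_nx (l : List Bool) : l.length ≤ (nx l).length := by
  induction l with
  | nil => simp [nx]
  | cons b l ih => cases b <;> simp [nx, ih]

def vl : List Bool → ℕ
  | [] => 0
  | b :: l => 2 * vl l + (if b = true then 2 else 1)

theorem vl_nx (l : List Bool) : vl (nx l) = vl l + 1 := by
  induction l with
  | nil => simp [nx, vl]
  | cons b l ih =>
    cases b
    · simp [nx, vl]
    · simp only [nx, vl, ih]
      simp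
      ring

theorem vl_inj : ∀ l l' : List Bool, vl l = vl l' → l = l' := by
  intro l
  induction l with
  | nil =>
    intro l' h
    cases l' with
    | nil => rfl
    | cons b l' =>
      simp only [vl] at h
      split_ifs at h <;> omega
  | cons b l ih =>
    intro l' h
    cases l' with
    | nil =>
      simp only [vl] at h
      split_ifs at h <;> omega
    | cons b' l' =>
      simp only [vl] at h
      cases b <;> cases b'
      · simp only [Bool.false_eq_true, if_false] at h
        rw [ih l' (by omega)]
      · simp only [Bool.false_eq_true, if_false, if_true] at h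
        omega
      · simp only [Bool.false_eq_true, if_false, if_true] at h
        omega
      · simp only [if_true] at h
        rw [ih l' (by omega)]

def str (e : ℕ) : List Bool := nx^[e] []

theorem primrec_str : Primrec str :=
  Primrec.nat_iterate Primrec.id (Primrec.const _) (primrec_nx.comp Primrec.snd)

theorem vl_str (e : ℕ) : vl (str e) = e := by
  induction e with
  | zero => rfl
  | succ e ih => rw [str, Function.iterate_succ_apply', vl_nx]; exact congrArg (· + 1) ih

theorem str_surj (l : List Bool) : str (vl l) = l := vl_inj _ _ (vl_str _)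

theorem length_str_succ (e : ℕ) : (str e).length ≤ (str (e + 1)).length := by
  rw [str, str, Function.iterate_succ_apply']
  exact length_nx _

/-! ### weights -/

/-- tokens -/
abbrev Tok := List Bool × List Bool × ℕ

def bs (l : List Tok) (c : List Bool × ℕ) (L : ℕ) : ℕ :=
  l.foldr (fun x m => (if x.2 = c then 2 ^ (L - x.1.length) else 0) + m) 0

theorem bs_cons (x : Tok) (l : List Tok) (c : List Bool × ℕ) (L : ℕ) :
    bs (x :: l) c L = (if x.2 = c then 2 ^ (L - x.1.length) else 0) + bs l c L := rfl

theorem bw_cons (x : Tok) (l : List Tok) (τ : List Bool) (r : ℕ) :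
    bw (x :: l) τ r = (if x.2 = (τ, r) then (1 / 2 : ℝ) ^ x.1.length else 0) + bw l τ r := by
  unfold bw
  rw [List.filter_cons]
  by_cases h : x.2 = (τ, r)
  · simp [h]
  · simp [h]

theorem bw_nil (τ : List Bool) (r : ℕ) : bw [] τ r = 0 := by simp [bw]

theorem bw_append (l l' : List Tok) (τ : List Bool) (r : ℕ) :
    bw (l ++ l') τ r = bw l τ r + bw l' τ r := by
  induction l with
  | nil => rw [List.nil_append, bw_nil, zero_add]
  | cons x l ih => rw [List.cons_append, bw_cons, bw_cons, ih, add_assoc]

theorem bs_eq (l : List Tok) (τ : List Bool) (r L : ℕ) (h : ∀ x ∈ l, x.1.length ≤ L) :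
    (bs l (τ, r) L : ℝ) = bw l τ r * 2 ^ L := by
  induction l with
  | nil => simp [bs, bw_nil]
  | cons x l ih =>
    rw [bs_cons, bw_cons, Nat.cast_add, ih (fun y hy => h y (List.mem_cons_of_mem _ hy)), add_mul]
    congr 1
    by_cases hx : x.2 = (τ, r)
    · rw [if_pos hx, if_pos hx]
      have h1 := h x List.mem_cons_self
      have h2 : (2:ℝ) ^ L = 2 ^ (L - x.1.length) * 2 ^ x.1.length := by
        rw [← pow_add, Nat.sub_add_cancel h1]
      rw [h2, one_div, inv_pow]
      push_cast
      field_simp
    · rw [if_neg hx, if_neg hx]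
      simp

/-! ### the process -/

section
variable (out : List Bool → List Bool) (act : ℕ → ℕ → ℕ → Prop)

/-- `c` is a possible box for `ζ` -/
def Pr (c : List Bool × ℕ) (y : ℕ × List Tok × List Bool) : Prop :=
  (∀ x ∈ y.2.1, ¬ x.1 = y.2.2.take x.1.length) ∧ act c.1.length c.2 y.2.2.length ∧
    c.2 + y.1 ≤ y.2.2.length ∧ bs y.2.1 c y.2.2.length < 2 ^ (y.2.2.length - (c.2 + y.1))

def cd (ζ : List Bool) : List (List Bool × ℕ) :=
  (List.range ((out ζ).length + 1)).flatMap
    (fun i => (List.range (ζ.length + 1)).map (fun r => ((out ζ).take i, r)))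

open Classical in
noncomputable def step (d : ℕ) (s : List Tok) (ζ : List Bool) : List Tok :=
  s ++ (((cd out ζ).filter (fun c => Pr act c (d, s, ζ))).take 1).map (fun c => (ζ, c))

noncomputable def st (d e : ℕ) : List Tok :=
  Nat.rec [] (fun e s => step out act d s (str e)) e

theorem st_succ (d e : ℕ) : st out act d (e + 1) = step out act d (st out act d e) (str e) := rfl

theorem mem_cd {ζ τ : List Bool} {r : ℕ} : (τ, r) ∈ cd out ζ ↔ τ <+: out ζ ∧ r ≤ ζ.length := by
  unfold cd
  simp only [List.mem_flatMap, List.mem_map, List.mem_range, Prod.mk.injEq]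
  constructor
  · rintro ⟨i, hi, r', hr', h1, h2⟩
    rw [← h1, ← h2]
    exact ⟨List.take_prefix _ _, by omega⟩
  · rintro ⟨h1, h2⟩
    exact ⟨τ.length, by have := h1.length_le; omega, r, by omega,
      (List.prefix_iff_eq_take.1 h1).symm, rfl⟩

/-- the new tokens -/
theorem step_cases (d : ℕ) (s : List Tok) (ζ : List Bool) :
    (step out act d s ζ = s ∧ ∀ c ∈ cd out ζ, ¬ Pr act c (d, s, ζ)) ∨
    ∃ c ∈ cd out ζ, Pr act c (d, s, ζ) ∧ step out act d s ζ = s ++ [(ζ, c)] := by
  classical
  unfold step
  rcases h : (cd out ζ).filter (fun c => Pr act c (d, s, ζ)) with _ | ⟨c, l⟩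
  · left
    refine ⟨by simp, fun c hc hP => ?_⟩
    have : c ∈ (cd out ζ).filter (fun c => Pr act c (d, s, ζ)) := by
      rw [List.mem_filter]
      exact ⟨hc, by simpa using hP⟩
    rw [h] at this
    simp at this
  · right
    have : c ∈ (cd out ζ).filter (fun c => Pr act c (d, s, ζ)) := by
      rw [h]
      exact List.mem_cons_self
    rw [List.mem_filter] at this
    exact ⟨c, this.1, by simpa using this.2, by simp⟩

theorem primrec_bs : Primrec fun y : (List Bool × ℕ) × (ℕ × List Tok × List Bool) =>
    bs y.2.2.1 y.1 y.2.2.2.length := by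
  unfold bs
  refine Primrec.list_foldr (f := fun y : (List Bool × ℕ) × (ℕ × List Tok × List Bool) => y.2.2.1)
    (g := fun _ => 0)
    (h := fun y p => (if p.1.2 = y.1 then 2 ^ (y.2.2.2.length - p.1.1.length) else 0) + p.2)
    (Primrec.fst.comp (Primrec.snd.comp Primrec.snd)) (Primrec.const 0) ?_
  refine Primrec.nat_add.comp (Primrec.ite ?_ ?_ (Primrec.const 0))
    (Primrec.snd.comp Primrec.snd)
  · exact Primrec.eq.comp (Primrec.snd.comp (Primrec.fst.comp Primrec.snd))
      (Primrec.fst.comp Primrec.fst)
  · refine primrec_pow.comp (Primrec.const 2) (Primrec.nat_sub.comp ?_ ?_)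
    · exact Primrec.list_length.comp (Primrec.snd.comp (Primrec.snd.comp
        (Primrec.snd.comp Primrec.fst)))
    · exact Primrec.list_length.comp (Primrec.fst.comp (Primrec.fst.comp Primrec.snd))

theorem primrec_Pr (ha : PrimrecPred (fun x : ℕ × ℕ × ℕ => act x.1 x.2.1 x.2.2)) :
    PrimrecRel (Pr act) := by
  have hζ : Primrec fun y : (List Bool × ℕ) × (ℕ × List Tok × List Bool) => y.2.2.2.length :=
    Primrec.list_length.comp (Primrec.snd.comp (Primrec.snd.comp Primrec.snd))
  have hrd : Primrec fun y : (List Bool × ℕ) × (ℕ × List Tok × List Bool) => y.1.2 + y.2.1 :=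
    Primrec.nat_add.comp (Primrec.snd.comp Primrec.fst) (Primrec.fst.comp Primrec.snd)
  unfold Pr
  refine PrimrecPred.and ?_ (PrimrecPred.and ?_ (PrimrecPred.and ?_ ?_))
  · refine PP.all_mem (α := (List Bool × ℕ) × (ℕ × List Tok × List Bool))
      (f := fun y => y.2.2.1) (p := fun y x => ¬ x.1 = y.2.2.2.take x.1.length) ?_
      (Primrec.fst.comp (Primrec.snd.comp Primrec.snd))
    refine PrimrecPred.not ?_
    exact Primrec.eq.comp (Primrec.fst.comp Primrec.snd) (Primrec.list_take.comp
      (Primrec.list_length.comp (Primrec.fst.comp Primrec.snd))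
      (Primrec.snd.comp (Primrec.snd.comp (Primrec.snd.comp Primrec.fst))))
  · exact ha.comp (Primrec.pair (Primrec.list_length.comp (Primrec.fst.comp Primrec.fst))
      (Primrec.pair (Primrec.snd.comp Primrec.fst) hζ))
  · exact Primrec.nat_le.comp hrd hζ
  · exact Primrec.nat_lt.comp primrec_bs
      (primrec_pow.comp (Primrec.const 2) (Primrec.nat_sub.comp hζ hrd))

theorem primrec_cd (ho : Primrec out) : Primrec (cd out) := by
  unfold cd
  refine Primrec.list_flatMap (Primrec.list_range.comp (Primrec.succ.comp
    (Primrec.list_length.comp ho))) ?_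
  refine Primrec.list_map (Primrec.list_range.comp (Primrec.succ.comp
    (Primrec.list_length.comp Primrec.fst))) ?_
  exact Primrec.pair (Primrec.list_take.comp (Primrec.snd.comp Primrec.fst)
    (ho.comp (Primrec.fst.comp Primrec.fst))) Primrec.snd

theorem primrec_step (ho : Primrec out)
    (ha : PrimrecPred (fun x : ℕ × ℕ × ℕ => act x.1 x.2.1 x.2.2)) :
    Primrec fun y : ℕ × List Tok × List Bool => step out act y.1 y.2.1 y.2.2 := by
  classical
  unfold step
  refine Primrec.list_append.comp (Primrec.fst.comp Primrec.snd) ?_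
  refine Primrec.list_map (Primrec.list_take.comp (Primrec.const 1) ?_) ?_
  · have h1 := (primrec_Pr act ha).listFilter
    exact h1.comp ((primrec_cd out ho).comp (Primrec.snd.comp Primrec.snd)) Primrec.id
  · exact Primrec.pair (Primrec.snd.comp (Primrec.snd.comp Primrec.fst)) Primrec.snd

theorem primrec_st (ho : Primrec out)
    (ha : PrimrecPred (fun x : ℕ × ℕ × ℕ => act x.1 x.2.1 x.2.2)) :
    Primrec₂ (st out act) := by
  unfold st
  refine Primrec.nat_rec' (f := fun y : ℕ × ℕ => y.2) (g := fun _ => ([] : List Tok))
    (h := fun y p => step out act y.1 p.2 (str p.1)) Primrec.snd (Primrec.const _) ?_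
  exact (primrec_step out act ho ha).comp (Primrec.pair (Primrec.fst.comp Primrec.fst)
    (Primrec.pair (Primrec.snd.comp Primrec.snd) (primrec_str.comp (Primrec.fst.comp Primrec.snd))))

/-- the invariants -/
structure Inv (d e : ℕ) (s : List Tok) : Prop where
  len : ∀ x ∈ s, x.1.length ≤ (str e).length
  ent : ∀ x ∈ s, x.2.1 <+: out x.1 ∧ act x.2.1.length x.2.2 x.1.length
  pw : s.Pairwise fun x y => ¬ x.1 <+: y.1 ∧ ¬ y.1 <+: x.1
  wt : ∀ τ r, bw s τ r ≤ (1 / 2 : ℝ) ^ (r + d)

theorem inv_st (d e : ℕ) : Inv out act d e (st out act d e) := by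
  induction e with
  | zero =>
    refine ⟨?_, ?_, ?_, ?_⟩
    · intro x hx
      simp [st] at hx
    · intro x hx
      simp [st] at hx
    · simp [st]
    · intro τ r
      have : st out act d 0 = [] := rfl
      rw [this, bw_nil]
      positivity
  | succ e ih =>
    rw [st_succ]
    have hlen := length_str_succ e
    rcases step_cases out act d (st out act d e) (str e) with ⟨h1, -⟩ | ⟨c, hc, ⟨p1, p2, p3, p4⟩, h1⟩
    · rw [h1]
      exact ⟨fun x hx => (ih.len x hx).trans hlen, ih.ent, ih.pw, ih.wt⟩
    · rw [h1]
      obtain ⟨τ', r'⟩ := c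
      refine ⟨?_, ?_, ?_, ?_⟩
      · intro x hx
        rcases List.mem_append.1 hx with hx | hx
        · exact (ih.len x hx).trans hlen
        · rw [List.mem_singleton] at hx
          rw [hx]
          exact hlen
      · intro x hx
        rcases List.mem_append.1 hx with hx | hx
        · exact ih.ent x hx
        · rw [List.mem_singleton] at hx
          rw [hx]
          exact ⟨((mem_cd out).1 hc).1, p2⟩
      · rw [List.pairwise_append]
        refine ⟨ih.pw, List.pairwise_singleton _ _, ?_⟩
        intro x hx y hy
        rw [List.mem_singleton] at hy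
        rw [hy]
        have h2 : ¬ x.1 <+: str e := by
          intro h
          exact p1 x hx (List.prefix_iff_eq_take.1 h)
        refine ⟨h2, fun h => ?_⟩
        have h3 : str e = x.1 := h.eq_of_length_le (ih.len x hx)
        exact h2 (by rw [h3])
      · intro τ r
        rw [bw_append, bw_cons, bw_nil, add_zero]
        by_cases heq : ((str e, (τ', r')) : Tok).2 = (τ, r)
        · rw [if_pos heq]
          simp only [Prod.mk.injEq] at heq
          obtain ⟨rfl, rfl⟩ := heq
          have h4 := bs_eq (st out act d e) τ' r' (str e).length ih.len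
          have h5 : bs (st out act d e) (τ', r') (str e).length + 1 ≤
              2 ^ ((str e).length - (r' + d)) := p4
          have h6 : ((bs (st out act d e) (τ', r') (str e).length : ℝ)) + 1 ≤
              2 ^ ((str e).length - (r' + d)) := by exact_mod_cast h5
          have h7 : (2:ℝ) ^ (str e).length = 2 ^ ((str e).length - (r' + d)) * 2 ^ (r' + d) := by
            rw [← pow_add, Nat.sub_add_cancel p3]
          have h8 : (0:ℝ) < 2 ^ (str e).length := by positivity
          have h9 : (0:ℝ) < 2 ^ (r' + d) := by positivity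
          rw [h4] at h6
          have h10 : (bw (st out act d e) τ' r' + (1 / 2 : ℝ) ^ (str e).length) * 2 ^ (str e).length ≤
              (1 / 2 : ℝ) ^ (r' + d) * 2 ^ (str e).length := by
            have e1 : (1 / 2 : ℝ) ^ (str e).length * 2 ^ (str e).length = 1 := by
              rw [← mul_pow]; norm_num
            have e2 : (1 / 2 : ℝ) ^ (r' + d) * 2 ^ (str e).length =
                2 ^ ((str e).length - (r' + d)) := by
              rw [h7, mul_comm ((2:ℝ) ^ ((str e).length - (r' + d))), ← mul_assoc, ← mul_pow]
              norm_num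
            rw [add_mul, e1, e2]
            exact h6
          exact le_of_mul_le_mul_right h10 h8
        · rw [if_neg heq, add_zero]
          exact ih.wt τ r

end

end PROCx

open PROCx in
theorem f_proc : S_PROC := by
  intro out act ho ha
  refine ⟨st out act, primrec_st out act ho ha, ?_, fun d e => (inv_st out act d e).ent,
    fun d e => (inv_st out act d e).pw, fun d e => (inv_st out act d e).wt, ?_⟩
  · intro d e
    rw [st_succ]
    exact List.prefix_append _ _
  · intro d Z hZ τ r k hτ hact hrk
    have hlen : (pre Z k).length = k := length_pre Z k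
    refine ⟨vl (pre Z k), ?_⟩
    have hs : str (vl (pre Z k)) = pre Z k := str_surj _
    have inv := inv_st out act d (vl (pre Z k))
    have hle := inv.len
    rw [hs, hlen] at hle
    refine le_antisymm (inv.wt τ r) ?_
    rcases step_cases out act d (st out act d (vl (pre Z k))) (str (vl (pre Z k))) with
      ⟨-, h1⟩ | ⟨c, hc, -, h1⟩
    · rw [hs] at h1
      have h2 := h1 (τ, r) ((mem_cd out).2 ⟨hτ, by rw [hlen]; omega⟩)
      have h3 : ¬ bs (st out act d (vl (pre Z k))) (τ, r) k < 2 ^ (k - (r + d)) := by
        intro hlt
        refine h2 ⟨?_, ?_, ?_, ?_⟩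
        · intro x hx h
          have hx' : x.1 <+: pre Z k := List.prefix_iff_eq_take.2 h
          exact hZ _ x hx (pre_eq_of_prefix hx').symm
        · show act τ.length r (pre Z k).length
          rw [hlen]
          exact hact
        · show r + d ≤ (pre Z k).length
          rw [hlen]
          exact hrk
        · show bs _ (τ, r) (pre Z k).length < 2 ^ ((pre Z k).length - (r + d))
          rw [hlen]
          exact hlt
      have h4 := bs_eq (st out act d (vl (pre Z k))) τ r k hle
      have h5 : (2:ℝ) ^ (k - (r + d)) ≤ bw (st out act d (vl (pre Z k))) τ r * 2 ^ k := by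
        rw [← h4]
        exact_mod_cast not_lt.1 h3
      have h8 : (0:ℝ) < 2 ^ k := by positivity
      have e2 : (1 / 2 : ℝ) ^ (r + d) * 2 ^ k = 2 ^ (k - (r + d)) := by
        have h7 : (2:ℝ) ^ k = 2 ^ (k - (r + d)) * 2 ^ (r + d) := by
          rw [← pow_add, Nat.sub_add_cancel hrk]
        rw [h7, mul_comm ((2:ℝ) ^ (k - (r + d))), ← mul_assoc, ← mul_pow]
        norm_num
      rw [← e2] at h5
      exact le_of_mul_le_mul_right h5 h8
    · exfalso
      have h2 : ((pre Z k, c) : Tok) ∈ st out act d (vl (pre Z k) + 1) := by
        rw [st_succ, h1, hs]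
        exact List.mem_append_right _ (List.mem_singleton.2 rfl)
      exact hZ _ _ h2 (by show pre Z (pre Z k).length = pre Z k; rw [hlen])

end Pool.Agent.H552R3.KG
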