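import Pool.Agent.H552R3.KG.Props

set_option autoImplicit false

namespace Pool.Agent.H552R3.KG

open Pool.Agent.Helper227 MeasureTheory Encodable
open scoped ENNReal

namespace REQaux

/-- natural number version of `bw` -/
def ns (l : List (List Bool × List Bool × ℕ)) (q : List Bool × ℕ) (M : ℕ) : ℕ :=
  l.foldr (fun x s => if x.2 = q then 2 ^ (M - x.1.length) + s else s) 0

theorem bw_nil (τ : List Bool) (r : ℕ) : bw [] τ r = 0 := by simp [bw]

theorem bw_cons (x : List Bool × List Bool × ℕ) (l : List (List Bool × List Bool × ℕ))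
    (τ : List Bool) (r : ℕ) :
    bw (x :: l) τ r = (if x.2 = (τ, r) then (1 / 2 : ℝ) ^ x.1.length else 0) + bw l τ r := by
  unfold bw
  by_cases h : x.2 = (τ, r)
  · rw [List.filter_cons_of_pos (by simpa using h), if_pos h]
    simp
  · rw [List.filter_cons_of_neg (by simpa using h), if_neg h, zero_add]

theorem bw_append (l l' : List (List Bool × List Bool × ℕ)) (τ : List Bool) (r : ℕ) :
    bw (l ++ l') τ r = bw l τ r + bw l' τ r := by
  unfold bw
  rw [List.filter_append, List.map_append, List.sum_append]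

theorem bw_nonneg (l : List (List Bool × List Bool × ℕ)) (τ : List Bool) (r : ℕ) :
    0 ≤ bw l τ r := by
  induction l with
  | nil => rw [bw_nil]
  | cons x l ih =>
    rw [bw_cons]
    split_ifs <;> positivity

theorem bw_mono {l l' : List (List Bool × List Bool × ℕ)} (h : l <+: l') (τ : List Bool) (r : ℕ) :
    bw l τ r ≤ bw l' τ r := by
  obtain ⟨t, rfl⟩ := h
  rw [bw_append]
  have := bw_nonneg t τ r
  linarith

theorem ns_eq (l : List (List Bool × List Bool × ℕ)) (τ : List Bool) (r M : ℕ)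
    (h : ∀ x ∈ l, x.1.length ≤ M) : (ns l (τ, r) M : ℝ) = bw l τ r * 2 ^ M := by
  induction l with
  | nil => simp [ns, bw]
  | cons x l ih =>
    have h1 := ih fun y hy => h y (List.mem_cons_of_mem _ hy)
    have h2 := h x List.mem_cons_self
    have h3 : ns (x :: l) (τ, r) M = if x.2 = (τ, r) then 2 ^ (M - x.1.length) + ns l (τ, r) M
      else ns l (τ, r) M := rfl
    rw [h3, bw_cons]
    split_ifs with h4
    · push_cast
      rw [h1, add_mul]
      congr 1
      obtain ⟨k, rfl⟩ := Nat.exists_eq_add_of_le h2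
      rw [Nat.add_sub_cancel_left, pow_add, ← mul_assoc, ← mul_pow]
      norm_num
    · rw [h1, zero_add]

/-- bound for the lengths -/
def ml (l : List (List Bool × List Bool × ℕ)) : ℕ := mlen (l.map Prod.fst)

theorem le_ml {l : List (List Bool × List Bool × ℕ)} : ∀ x ∈ l, x.1.length ≤ ml l := fun _ hx =>
  le_mlen (List.mem_map_of_mem hx)

theorem full_iff (l : List (List Bool × List Bool × ℕ)) (τ : List Bool) (r d : ℕ) :
    bw l τ r = (1 / 2 : ℝ) ^ (r + d) ↔ ns l (τ, r) (ml l) * 2 ^ (r + d) = 2 ^ (ml l) := by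
  have h1 := ns_eq l τ r (ml l) le_ml
  have h2 : ((1 : ℝ) / 2) ^ (r + d) * 2 ^ (r + d) = 1 := by
    rw [← mul_pow]; norm_num
  have hp : (0 : ℝ) < 2 ^ (ml l) := by positivity
  have hq : (0 : ℝ) < 2 ^ (r + d) := by positivity
  constructor
  · intro h
    have h3 : ((ns l (τ, r) (ml l) * 2 ^ (r + d) : ℕ) : ℝ) = ((2 ^ (ml l) : ℕ) : ℝ) := by
      push_cast
      rw [h1, h, mul_right_comm, h2, one_mul]
    exact_mod_cast h3
  · intro h
    have h3 : ((ns l (τ, r) (ml l) * 2 ^ (r + d) : ℕ) : ℝ) = ((2 ^ (ml l) : ℕ) : ℝ) := by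
      rw [h]
    push_cast at h3
    rw [h1] at h3
    have h4 : (bw l τ r * 2 ^ (r + d)) * 2 ^ (ml l) = 1 * 2 ^ (ml l) := by
      rw [one_mul]
      calc (bw l τ r * 2 ^ (r + d)) * 2 ^ (ml l) = bw l τ r * 2 ^ (ml l) * 2 ^ (r + d) := by ring
        _ = 2 ^ (ml l) := h3
    have h5 : bw l τ r * 2 ^ (r + d) = 1 := mul_right_cancel₀ hp.ne' h4
    have h6 : bw l τ r * 2 ^ (r + d) = (1 / 2 : ℝ) ^ (r + d) * 2 ^ (r + d) := by rw [h5, h2]
    exact mul_right_cancel₀ hq.ne' h6

theorem primrec_full {st : ℕ → ℕ → List (List Bool × List Bool × ℕ)} (hst : Primrec₂ st) (d : ℕ) :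
    PrimrecPred fun a : ℕ × List Bool × ℕ => bw (st d a.1) a.2.1 a.2.2 = (1 / 2 : ℝ) ^ (a.2.2 + d) := by
  have e1 : Primrec fun a : ℕ × List Bool × ℕ => st d a.1 :=
    hst.comp (Primrec.const d) Primrec.fst
  have e2 : Primrec fun a : ℕ × List Bool × ℕ => ml (st d a.1) := by
    unfold ml
    exact primrec_mlen.comp (Primrec.list_map e1 (Primrec.fst.comp Primrec.snd))
  have e3 : Primrec fun a : ℕ × List Bool × ℕ => ns (st d a.1) a.2 (ml (st d a.1)) := by
    unfold ns
    refine Primrec.list_foldr (f := fun a : ℕ × List Bool × ℕ => st d a.1) (g := fun _ => 0)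
      (h := fun a p => if p.1.2 = a.2 then 2 ^ (ml (st d a.1) - p.1.1.length) + p.2 else p.2)
      e1 (Primrec.const 0) ?_
    have f1 : Primrec fun y : (ℕ × List Bool × ℕ) × ((List Bool × List Bool × ℕ) × ℕ) => y.2.1.2 :=
      Primrec.snd.comp (Primrec.fst.comp Primrec.snd)
    have f2 : Primrec fun y : (ℕ × List Bool × ℕ) × ((List Bool × List Bool × ℕ) × ℕ) => y.1.2 :=
      Primrec.snd.comp Primrec.fst
    have f3 : Primrec fun y : (ℕ × List Bool × ℕ) × ((List Bool × List Bool × ℕ) × ℕ) =>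
        2 ^ (ml (st d y.1.1) - y.2.1.1.length) :=
      primrec_pow.comp (Primrec.const 2) (Primrec.nat_sub.comp (e2.comp Primrec.fst)
        (Primrec.list_length.comp (Primrec.fst.comp (Primrec.fst.comp Primrec.snd))))
    exact Primrec.ite (Primrec.eq.comp f1 f2)
      (Primrec.nat_add.comp f3 (Primrec.snd.comp Primrec.snd)) (Primrec.snd.comp Primrec.snd)
  have e4 : Primrec fun a : ℕ × List Bool × ℕ => 2 ^ (a.2.2 + d) :=
    primrec_pow.comp (Primrec.const 2) (Primrec.nat_add.comp (Primrec.snd.comp Primrec.snd)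
      (Primrec.const d))
  have e5 : PrimrecPred fun a : ℕ × List Bool × ℕ =>
      ns (st d a.1) a.2 (ml (st d a.1)) * 2 ^ (a.2.2 + d) = 2 ^ ml (st d a.1) :=
    Primrec.eq.comp (Primrec.nat_mul.comp e3 e4) (primrec_pow.comp (Primrec.const 2) e2)
  refine e5.of_eq fun a => ?_
  exact (full_iff (st d a.1) a.2.1 a.2.2 d).symm

/-- total weight -/
noncomputable def tw (l : List (List Bool × List Bool × ℕ)) : ℝ :=
  (l.map fun x => (1 / 2 : ℝ) ^ x.1.length).sum

theorem sum_bw_le (F : Finset (List Bool × ℕ)) (l : List (List Bool × List Bool × ℕ)) :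
    ∑ q ∈ F, bw l q.1 q.2 ≤ tw l := by
  induction l with
  | nil => simp [bw, tw]
  | cons x l ih =>
    have h1 : ∀ q ∈ F, bw (x :: l) q.1 q.2
        = (if x.2 = q then (1 / 2 : ℝ) ^ x.1.length else 0) + bw l q.1 q.2 :=
      fun q _ => bw_cons x l q.1 q.2
    rw [Finset.sum_congr rfl h1, Finset.sum_add_distrib, Finset.sum_ite_eq]
    have h2 : tw (x :: l) = (1 / 2 : ℝ) ^ x.1.length + tw l := by simp [tw]
    rw [h2]
    split_ifs
    · linarith
    · have : (0 : ℝ) ≤ (1 / 2 : ℝ) ^ x.1.length := by positivity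
      linarith

theorem tw_le_one (l : List (List Bool × List Bool × ℕ))
    (h : l.Pairwise fun x y => ¬ x.1 <+: y.1 ∧ ¬ y.1 <+: x.1) : tw l ≤ 1 := by
  have h1 : (l.map Prod.fst).Pairwise fun a b => ¬ a <+: b ∧ ¬ b <+: a := by
    rw [List.pairwise_map]; exact h
  have hnd : (l.map Prod.fst).Nodup := h1.imp fun {a b} hab => by
    rintro rfl
    exact hab.1 (List.prefix_refl _)
  have hsymm : Std.Symm fun a b : List Bool => ¬ a <+: b ∧ ¬ b <+: a :=
    ⟨fun a b hab => ⟨hab.2, hab.1⟩⟩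
  have hk := kraft (P := fun σ => σ ∈ l.map Prod.fst) (fun σ τ hσ hτ hp => by
    by_contra hne
    exact (h1.forall hσ hτ hne).1 hp) (l.map Prod.fst).toFinset
    (fun σ hσ => List.mem_toFinset.1 hσ)
  have hr := ENNReal.toReal_mono ENNReal.one_ne_top hk
  rw [ENNReal.toReal_sum (fun a _ => ENNReal.pow_ne_top (by norm_num))] at hr
  have h2 : ∑ σ ∈ (l.map Prod.fst).toFinset, ((1 / 2 : ℝ≥0∞) ^ σ.length).toReal
      = ∑ σ ∈ (l.map Prod.fst).toFinset, (1 / 2 : ℝ) ^ σ.length := by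
    refine Finset.sum_congr rfl fun σ _ => ?_
    rw [ENNReal.toReal_pow]
    norm_num
  rw [h2, List.sum_toFinset _ hnd, List.map_map] at hr
  simpa [tw, Function.comp_def] using hr

end REQaux

open REQaux

theorem f_req : S_REQ := by
  classical
  intro U hU st hst hmono hpw d
  have hmono' : ∀ e e', e ≤ e' → st d e <+: st d e' := by
    intro e e' h
    induction h with
    | refl => exact List.prefix_refl _
    | step _ ih => exact ih.trans (hmono d _)
  obtain ⟨LF, hLF⟩ : ∃ LF : ℕ × List Bool × ℕ → Prop, LF = fun a =>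
      bw (st d a.1) a.2.1 a.2.2 = (1 / 2 : ℝ) ^ (a.2.2 + d) ∧
      ∀ e' < a.1, ¬ bw (st d e') a.2.1 a.2.2 = (1 / 2 : ℝ) ^ (a.2.2 + d) := ⟨_, rfl⟩
  have pLF : PrimrecPred LF := by
    rw [hLF]
    refine (primrec_full hst d).and ?_
    refine PP.all_lt (f := fun a : ℕ × List Bool × ℕ => a.1)
      (p := fun a e' => ¬ bw (st d e') a.2.1 a.2.2 = (1 / 2 : ℝ) ^ (a.2.2 + d)) ?_ Primrec.fst
    have h1 : PrimrecPred fun x : (ℕ × List Bool × ℕ) × ℕ =>
        bw (st d x.2) x.1.2.1 x.1.2.2 = (1 / 2 : ℝ) ^ (x.1.2.2 + d) :=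
      (primrec_full hst d).comp (Primrec.snd.pair (Primrec.snd.comp Primrec.fst))
    exact h1.not
  obtain ⟨req, hreqdef⟩ : ∃ req : ℕ → Option (ℕ × List Bool), req = fun i =>
      (decode (α := ℕ × List Bool × ℕ) i).bind fun a =>
        if LF a ∧ encode a = i then some (a.2.2 + d, a.2.1) else none := ⟨_, rfl⟩
  have hreq : Primrec req := by
    rw [hreqdef]
    refine Primrec.option_bind Primrec.decode ?_
    refine Primrec.ite ?_ ?_ (Primrec.const none)
    · exact (pLF.comp Primrec.snd).and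
        (Primrec.eq.comp (Primrec.encode.comp Primrec.snd) Primrec.fst)
    · exact Primrec.option_some.comp ((Primrec.nat_add.comp (Primrec.snd.comp
        (Primrec.snd.comp Primrec.snd)) (Primrec.const d)).pair
        (Primrec.fst.comp (Primrec.snd.comp Primrec.snd)))
  have hreq1 : ∀ a, LF a → req (encode a) = some (a.2.2 + d, a.2.1) := by
    intro a ha
    rw [hreqdef]
    simp only [encodek, Option.bind_some]
    rw [if_pos ⟨ha, trivial⟩]
  have hreq2 : ∀ i p, req i = some p → ∃ a, LF a ∧ encode a = i ∧ p = (a.2.2 + d, a.2.1) := by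
    intro i p hp
    rw [hreqdef] at hp
    simp only [Option.bind_eq_some_iff] at hp
    obtain ⟨a, _, ha⟩ := hp
    split_ifs at ha with h
    exact ⟨a, h.1, h.2, (Option.some.inj ha).symm⟩
  have hsum : ∀ n, ∃ A : Finset (ℕ × List Bool × ℕ), (∀ a ∈ A, LF a ∧ encode a < n) ∧
      ∑ i ∈ Finset.range n, KC.wr req i = ∑ a ∈ A, (1 / 2 : ℝ) ^ (a.2.2 + d) := by
    intro n
    induction n with
    | zero => exact ⟨∅, by simp, by simp⟩
    | succ n ih =>
      obtain ⟨A, hA, hs⟩ := ih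
      rcases hq : req n with _ | p
      · refine ⟨A, fun a ha => ⟨(hA a ha).1, Nat.lt_succ_of_lt (hA a ha).2⟩, ?_⟩
        rw [Finset.sum_range_succ, hs]
        simp [KC.wr, hq]
      · obtain ⟨a, ha1, ha2, ha3⟩ := hreq2 n p hq
        have hnot : a ∉ A := fun h => absurd (hA a h).2 (by omega)
        refine ⟨insert a A, ?_, ?_⟩
        · intro b hb
          rcases Finset.mem_insert.1 hb with rfl | hb
          · exact ⟨ha1, by omega⟩
          · exact ⟨(hA b hb).1, Nat.lt_succ_of_lt (hA b hb).2⟩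
        · rw [Finset.sum_range_succ, hs, Finset.sum_insert hnot, add_comm]
          congr 1
          simp [KC.wr, hq, ha3]
  have hb : ∀ n, ∑ i ∈ Finset.range n, KC.wr req i ≤ 1 := by
    intro n
    obtain ⟨A, hA, hs⟩ := hsum n
    rw [hs]
    obtain ⟨E, hE⟩ : ∃ E : ℕ, E = A.sup fun a => a.1 := ⟨_, rfl⟩
    have hinj : Set.InjOn Prod.snd (A : Set (ℕ × List Bool × ℕ)) := by
      intro a ha b hb hab
      have h1 := (hA a ha).1
      have h2 := (hA b hb).1
      rw [hLF] at h1 h2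
      obtain ⟨h3, h4⟩ := h1
      obtain ⟨h5, h6⟩ := h2
      have h7 : a.1 = b.1 := by
        rcases Nat.lt_trichotomy a.1 b.1 with h | h | h
        · exact absurd (hab ▸ h3) (h6 _ h)
        · exact h
        · exact absurd (hab.symm ▸ h5) (h4 _ h)
      exact Prod.ext h7 hab
    calc ∑ a ∈ A, (1 / 2 : ℝ) ^ (a.2.2 + d)
        = ∑ a ∈ A, bw (st d a.1) a.2.1 a.2.2 := by
          refine Finset.sum_congr rfl fun a ha => ?_
          have h1 := (hA a ha).1
          rw [hLF] at h1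
          exact h1.1.symm
      _ ≤ ∑ a ∈ A, bw (st d E) a.2.1 a.2.2 := by
          refine Finset.sum_le_sum fun a ha => ?_
          refine bw_mono (hmono' _ _ ?_) _ _
          rw [hE]
          exact Finset.le_sup (f := fun a : ℕ × List Bool × ℕ => a.1) ha
      _ = ∑ q ∈ A.image Prod.snd, bw (st d E) q.1 q.2 := by
          rw [Finset.sum_image hinj]
      _ ≤ tw (st d E) := sum_bw_le _ _
      _ ≤ 1 := tw_le_one _ (hpw d E)
  obtain ⟨M, hM1, hM2, hM3⟩ := KC.kraft_chaitin hreq hb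
  obtain ⟨c, hc⟩ := hU.2 M ⟨hM1, hM2⟩
  refine ⟨c, fun τ r hex => ?_⟩
  have hLFa : LF (Nat.find hex, τ, r) := by
    rw [hLF]
    exact ⟨Nat.find_spec hex, fun e' he' => Nat.find_min hex he'⟩
  obtain ⟨ρ, hρ1, hρ2⟩ := hM3 _ _ _ (hreq1 _ hLFa)
  obtain ⟨τ', h1, h2⟩ := hc ρ τ hρ2
  have h3 := KU_le h2
  simp only at hρ1
  omega

end Pool.Agent.H552R3.KG
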