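import Pool.Agent.H552R3.KG.Props

set_option autoImplicit false

namespace Pool.Agent.H552R3.KG

open Pool.Agent.Helper227 MeasureTheory Encodable
open scoped ENNReal

namespace TEST

theorem ofReal_half (n : ℕ) : ENNReal.ofReal ((1 / 2 : ℝ) ^ n) = (1 / 2 : ℝ≥0∞) ^ n := by
  rw [ENNReal.ofReal_pow (by norm_num)]
  congr 1
  rw [ENNReal.ofReal_div_of_pos (by norm_num)]
  simp

theorem lam_list_le {β : Type} (l : List (List Bool × β)) :
    lam {Z | ∃ x ∈ l, Z ∈ cyl x.1} ≤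
      ENNReal.ofReal ((l.map fun x => (1 / 2 : ℝ) ^ x.1.length).sum) := by
  induction l with
  | nil => simp
  | cons a l ih =>
    have hn : 0 ≤ (l.map fun x => (1 / 2 : ℝ) ^ x.1.length).sum := by
      apply List.sum_nonneg
      intro y hy
      obtain ⟨x, _, rfl⟩ := List.mem_map.1 hy
      positivity
    have hsub : {Z | ∃ x ∈ a :: l, Z ∈ cyl x.1} ⊆ cyl a.1 ∪ {Z | ∃ x ∈ l, Z ∈ cyl x.1} := by
      rintro Z ⟨x, hx, hZ⟩
      rcases List.mem_cons.1 hx with rfl | hx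
      · exact Or.inl hZ
      · exact Or.inr ⟨x, hx, hZ⟩
    refine (measure_mono hsub).trans ((measure_union_le _ _).trans ?_)
    rw [List.map_cons, List.sum_cons, ENNReal.ofReal_add (by positivity) hn, lam_cyl, ofReal_half]
    exact add_le_add le_rfl ih

theorem prefix_prim {α : Type*} [Primcodable α] {f g : α → List Bool} (hf : Primrec f)
    (hg : Primrec g) : PrimrecPred fun a => f a <+: g a := by
  refine (Primrec.eq.comp hf (Primrec.list_take.comp (Primrec.list_length.comp hf) hg)).of_eq ?_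
  intro a
  exact List.prefix_iff_eq_take.symm

/-- the enumeration -/
def EE (st : ℕ → ℕ → List (List Bool × List Bool × ℕ)) (y : List Bool × ℕ × List Bool) : Prop :=
  ∃ e, ∃ x ∈ st (y.2.1 + 1) e, x.2.1 <+: y.1 ∧ x.1 <+: y.2.2

theorem s1_EE {st : ℕ → ℕ → List (List Bool × List Bool × ℕ)} (hst : Primrec₂ st) : S1 (EE st) := by
  refine S1.ex (p := fun (y : List Bool × ℕ × List Bool) (e : ℕ) =>
    ∃ x ∈ st (y.2.1 + 1) e, x.2.1 <+: y.1 ∧ x.1 <+: y.2.2) (S1.of_prim ?_)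
  refine PP.ex_mem (α := (List Bool × ℕ × List Bool) × ℕ) (β := List Bool × List Bool × ℕ)
    (f := fun a => st (a.1.2.1 + 1) a.2) (p := fun a x => x.2.1 <+: a.1.1 ∧ x.1 <+: a.1.2.2) ?_ ?_
  · refine PrimrecPred.and ?_ ?_
    · exact prefix_prim (Primrec.fst.comp (Primrec.snd.comp Primrec.snd))
        (Primrec.fst.comp (Primrec.fst.comp Primrec.fst))
    · exact prefix_prim (Primrec.fst.comp Primrec.snd)
        (Primrec.snd.comp (Primrec.snd.comp (Primrec.fst.comp Primrec.fst)))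
  · exact hst.comp (Primrec.succ.comp (Primrec.fst.comp (Primrec.snd.comp Primrec.fst))) Primrec.snd

/-- the stage `e` of the open set -/
def Se (st : ℕ → ℕ → List (List Bool × List Bool × ℕ)) (A : ℕ → Bool) (d e : ℕ) : Set (ℕ → Bool) :=
  {Z | ∃ x ∈ st (d + 1) e, x.2.1 = pre A x.2.1.length ∧ Z ∈ cyl x.1}

theorem UE_eq (st : ℕ → ℕ → List (List Bool × List Bool × ℕ)) (A : ℕ → Bool) (d : ℕ) :
    UE (EE st) A d = ⋃ e, Se st A d e := by
  ext Z
  simp only [Set.mem_iUnion]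
  constructor
  · rintro ⟨s, t, e, x, hx, h1, h2⟩
    refine ⟨e, x, hx, pre_eq_of_prefix h1, ?_⟩
    rw [mem_cyl_iff]
    exact (pre_eq_of_prefix h2).symm
  · rintro ⟨e, x, hx, h1, h2⟩
    rw [mem_cyl_iff] at h2
    refine ⟨x.2.1.length, x.1.length, e, x, hx, ?_, ?_⟩
    · simp only
      rw [← h1]
    · simp only
      rw [h2]

theorem Se_le (hWT : S_WT) (U : List Bool →. List Bool) (hU : IsUniversal U) (A : ℕ → Bool)
    (st : ℕ → ℕ → List (List Bool × List Bool × ℕ))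
    (hK : ∀ d e, ∀ x ∈ st d e, KU U (List.replicate x.2.1.length false) ≤ x.2.2)
    (hbw : ∀ d e τ r, bw (st d e) τ r ≤ (1 / 2 : ℝ) ^ (r + d)) (d e : ℕ) :
    lam (Se st A d e) ≤ (1 / 2) ^ d := by
  classical
  obtain ⟨l, hl⟩ : ∃ l, l = st (d + 1) e := ⟨_, rfl⟩
  set F : Finset (List Bool × ℕ) :=
    ((l.filter fun x => x.2.1 = pre A x.2.1.length).map fun x => x.2).toFinset with hF
  have hFmem : ∀ p, p ∈ F ↔ ∃ x ∈ l, x.2.1 = pre A x.2.1.length ∧ x.2 = p := by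
    intro p
    rw [hF, List.mem_toFinset, List.mem_map]
    simp only [List.mem_filter, decide_eq_true_eq]
    constructor
    · rintro ⟨x, ⟨h1, h2⟩, h3⟩; exact ⟨x, h1, h2, h3⟩
    · rintro ⟨x, h1, h2, h3⟩; exact ⟨x, ⟨h1, h2⟩, h3⟩
  have hsub : Se st A d e ⊆ ⋃ p ∈ F, {Z | ∃ x ∈ l.filter (fun x => x.2 = p), Z ∈ cyl x.1} := by
    rintro Z ⟨x, hx, h1, h2⟩
    rw [← hl] at hx
    simp only [Set.mem_iUnion]
    refine ⟨x.2, (hFmem _).2 ⟨x, hx, h1, rfl⟩, x, ?_, h2⟩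
    simp [hx]
  have h1 : lam (Se st A d e) ≤ ∑ p ∈ F, ENNReal.ofReal (bw l p.1 p.2) := by
    refine (measure_mono hsub).trans ((measure_biUnion_finset_le _ _).trans ?_)
    refine Finset.sum_le_sum fun p _ => ?_
    exact lam_list_le (l.filter fun x => x.2 = p)
  have h2 : ∑ p ∈ F, ENNReal.ofReal (bw l p.1 p.2) ≤
      ∑ p ∈ F, ENNReal.ofReal ((1 / 2 : ℝ) ^ (p.2 + (d + 1))) := by
    refine Finset.sum_le_sum fun p _ => ENNReal.ofReal_le_ofReal ?_
    rw [hl]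
    exact hbw _ _ _ _
  have h3 : ∑ p ∈ F, ENNReal.ofReal ((1 / 2 : ℝ) ^ (p.2 + (d + 1))) =
      ENNReal.ofReal (∑ p ∈ F, (1 / 2 : ℝ) ^ (p.2 + (d + 1))) :=
    (ENNReal.ofReal_sum_of_nonneg fun p _ => by positivity).symm
  have hinj : Set.InjOn (fun p : List Bool × ℕ => (p.1.length, p.2)) F := by
    intro p hp q hq hpq
    obtain ⟨x, _, hx1, hx2⟩ := (hFmem p).1 hp
    obtain ⟨y, _, hy1, hy2⟩ := (hFmem q).1 hq
    rw [hx2] at hx1
    rw [hy2] at hy1
    simp only [Prod.mk.injEq] at hpq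
    refine Prod.ext ?_ hpq.2
    rw [hx1, hy1, hpq.1]
  have h4 : ∑ p ∈ F, (1 / 2 : ℝ) ^ p.2 ≤ 2 := by
    have := hWT U hU (F.image fun p : List Bool × ℕ => (p.1.length, p.2)) ?_
    · rwa [Finset.sum_image hinj] at this
    · intro y hy
      obtain ⟨p, hp, rfl⟩ := Finset.mem_image.1 hy
      obtain ⟨x, hx, _, hx2⟩ := (hFmem p).1 hp
      simp only
      rw [← hx2]
      rw [hl] at hx
      exact hK _ _ x hx
  have h5 : ∑ p ∈ F, (1 / 2 : ℝ) ^ (p.2 + (d + 1)) ≤ (1 / 2) ^ d := by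
    have : ∑ p ∈ F, (1 / 2 : ℝ) ^ (p.2 + (d + 1)) = (∑ p ∈ F, (1 / 2 : ℝ) ^ p.2) * (1 / 2) ^ (d + 1) := by
      rw [Finset.sum_mul]
      exact Finset.sum_congr rfl fun p _ => pow_add _ _ _
    rw [this]
    calc (∑ p ∈ F, (1 / 2 : ℝ) ^ p.2) * (1 / 2) ^ (d + 1) ≤ 2 * (1 / 2) ^ (d + 1) := by
          gcongr
      _ = (1 / 2) ^ d := by rw [pow_succ]; ring
  calc lam (Se st A d e) ≤ _ := h1
    _ ≤ _ := h2
    _ = _ := h3
    _ ≤ ENNReal.ofReal ((1 / 2) ^ d) := ENNReal.ofReal_le_ofReal h5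
    _ = (1 / 2) ^ d := ofReal_half d

end TEST

open TEST in
theorem f_test : S_TEST := by
  intro hWT U hU A X hX st hst hmono hK hbw
  have htest : IsMLTest A (UE (EE st) A) := by
    refine isMLTest_of_E (s1_EE hst) fun d => ?_
    rw [UE_eq]
    have hm : Monotone (Se st A d) := by
      refine monotone_nat_of_le_succ fun e => ?_
      rintro Z ⟨x, hx, h⟩
      exact ⟨x, (hmono (d + 1) e).subset hx, h⟩
    rw [hm.measure_iUnion]
    exact iSup_le fun e => Se_le hWT U hU A st hK hbw d e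
  have h := hX _ htest
  simp only [Set.mem_iInter, not_forall] at h
  obtain ⟨d, hd⟩ := h
  refine ⟨d + 1, fun e x hx h1 h2 => hd ?_⟩
  rw [UE_eq]
  simp only [Set.mem_iUnion]
  exact ⟨e, x, hx, h1, by rw [mem_cyl_iff]; exact h2⟩

end Pool.Agent.H552R3.KG
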