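import Pool.Agent.H552R3.KG.Props

set_option autoImplicit false

namespace Pool.Agent.H552R3.KG

open Pool.Agent.Helper227 MeasureTheory Encodable
open scoped ENNReal

theorem wt_geo_aux (K j : ℕ) : ∑ r ∈ Finset.Ico K (K + j), (1 / 2 : ℝ) ^ r ≤
    2 * (1 / 2) ^ K - 2 * (1 / 2) ^ (K + j) := by
  induction j with
  | zero => simp
  | succ j ih =>
    rw [← add_assoc, Finset.sum_Ico_succ_top (by omega), pow_succ (1 / 2 : ℝ) (K + j)]
    linarith

theorem wt_geo (K : ℕ) (T : Finset ℕ) (hT : ∀ r ∈ T, K ≤ r) :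
    ∑ r ∈ T, (1 / 2 : ℝ) ^ r ≤ 2 * (1 / 2) ^ K := by
  obtain ⟨M, hM⟩ : ∃ M, ∀ r ∈ T, r < K + M := by
    refine ⟨T.sup id + 1, fun r hr => ?_⟩
    have : r ≤ T.sup id := Finset.le_sup (f := id) hr
    omega
  have h1 : T ⊆ Finset.Ico K (K + M) := fun r hr => Finset.mem_Ico.2 ⟨hT r hr, hM r hr⟩
  calc ∑ r ∈ T, (1 / 2 : ℝ) ^ r ≤ ∑ r ∈ Finset.Ico K (K + M), (1 / 2 : ℝ) ^ r :=
        Finset.sum_le_sum_of_subset_of_nonneg h1 (fun _ _ _ => by positivity)
    _ ≤ 2 * (1 / 2) ^ K - 2 * (1 / 2) ^ (K + M) := wt_geo_aux K M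
    _ ≤ _ := by
      have : (0 : ℝ) ≤ 2 * (1 / 2) ^ (K + M) := by positivity
      linarith

theorem f_wt : S_WT := by
  classical
  intro U hU F hF
  choose p hp1 hp2 using fun n : ℕ => hU.exists_min (List.replicate n false)
  have hinj : Function.Injective p := by
    intro n m h
    have h1 := hp2 n
    rw [h] at h1
    have h2 := Part.mem_unique h1 (hp2 m)
    have := congrArg List.length h2
    simpa using this
  set S := F.image Prod.fst with hS
  have hfib : ∑ x ∈ F, (1 / 2 : ℝ) ^ x.2 =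
      ∑ n ∈ S, ∑ x ∈ F.filter (fun x => x.1 = n), (1 / 2 : ℝ) ^ x.2 :=
    (Finset.sum_fiberwise_of_maps_to (fun x hx => Finset.mem_image_of_mem _ hx) _).symm
  have hone : ∀ n ∈ S, ∑ x ∈ F.filter (fun x => x.1 = n), (1 / 2 : ℝ) ^ x.2 ≤
      2 * (1 / 2) ^ (p n).length := by
    intro n _
    have e1 : ∑ x ∈ F.filter (fun x => x.1 = n), (1 / 2 : ℝ) ^ x.2 =
        ∑ r ∈ (F.filter (fun x => x.1 = n)).image Prod.snd, (1 / 2 : ℝ) ^ r := by
      rw [Finset.sum_image]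
      intro x hx y hy hxy
      have h1 := (Finset.mem_filter.1 hx).2
      have h2 := (Finset.mem_filter.1 hy).2
      exact Prod.ext (h1.trans h2.symm) hxy
    rw [e1]
    apply wt_geo
    intro r hr
    obtain ⟨x, hx, rfl⟩ := Finset.mem_image.1 hr
    obtain ⟨hx1, hx2⟩ := Finset.mem_filter.1 hx
    rw [hp1, ← hx2]
    exact hF x hx1
  have hkraft : ∑ n ∈ S, (1 / 2 : ℝ) ^ (p n).length ≤ 1 := by
    have h1 : ∑ σ ∈ S.image p, (1 / 2 : ℝ≥0∞) ^ σ.length ≤ 1 :=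
      kraft (P := fun σ => (U σ).Dom) hU.1.2 _ (by
        intro σ hσ
        obtain ⟨n, _, rfl⟩ := Finset.mem_image.1 hσ
        exact Part.dom_iff_mem.2 ⟨_, hp2 n⟩)
    rw [Finset.sum_image (fun a _ b _ h => hinj h)] at h1
    have h2 := ENNReal.toReal_mono ENNReal.one_ne_top h1
    rw [ENNReal.toReal_sum (fun n _ => by
      exact ENNReal.pow_ne_top (by norm_num)), ENNReal.toReal_one] at h2
    refine le_trans (le_of_eq (Finset.sum_congr rfl fun n _ => ?_)) h2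
    rw [ENNReal.toReal_pow]
    norm_num
  calc ∑ x ∈ F, (1 / 2 : ℝ) ^ x.2 ≤ ∑ n ∈ S, 2 * (1 / 2) ^ (p n).length := by
        rw [hfib]
        exact Finset.sum_le_sum hone
    _ = 2 * ∑ n ∈ S, (1 / 2 : ℝ) ^ (p n).length := by rw [Finset.mul_sum]
    _ ≤ 2 := by linarith

end Pool.Agent.H552R3.KG
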