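import Pool.Agent.H552R3.KG.F_K1
import Pool.Agent.H552R3.KG.F_K2
import Pool.Agent.H552R3.KG.F_K3
import Pool.Agent.H552R3.KG.F_K5
import Pool.Agent.H552R3.KG.F_OUT
import Pool.Agent.H552R3.KG.F_ACT
import Pool.Agent.H552R3.KG.F_WT
import Pool.Agent.H552R3.KG.F_PROC
import Pool.Agent.H552R3.KG.F_TEST
import Pool.Agent.H552R3.KG.F_REQ

set_option autoImplicit false

namespace Pool.Agent.H552R3.KG

open Pool.Agent.Helper227

/-- the relativised Kučera–Gács theorem -/
theorem kg : S_KG := kg_of (f_k2 f_k1) f_k3 f_K5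

/-- bases for randomness are K-trivial -/
theorem base : S_BASE := base_of f_OUT f_act f_wt f_proc f_test f_req

theorem main (U : List Bool →. List Bool) (hU : IsUniversal U)
    (A B : ℕ → Bool) (hLR : ∀ X, MLR B X → MLR (join A B) X) (hB : MLR A B) : KTrivial U A :=
  main_of kg base U hU A B hLR hB

end Pool.Agent.H552R3.KG
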