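import Pool.Agent.Helper227.VL
import Pool.Agent.Helper227.KC2
import Pool.Agent.Helper227.Mach

set_option autoImplicit false

/-! Statements of the tasks for `A ⊕ B ≤_LR B` and `B` `A`-random imply `A` K-trivial. -/

namespace Pool.Agent.H552R3.KG

open Pool.Agent.Helper227 MeasureTheory Encodable
open scoped ENNReal

/-- K1 (counting): a set with conditional measure at least `2^-(k+1)` below `σ` has conditional
measure at least `2^-(k+2)` below two different extensions of length `|σ| + k + 2`. -/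
def S_K1 : Prop := ∀ (P : Set (ℕ → Bool)), MeasurableSet P → ∀ (σ : List Bool) (k : ℕ),
  (1 / 2 : ℝ≥0∞) ^ (σ.length + (k + 1)) ≤ lam (cyl σ ∩ P) →
  ∃ τ₁ τ₂ : List Bool, τ₁.length = σ.length + (k + 2) ∧ τ₂.length = σ.length + (k + 2) ∧
    σ <+: τ₁ ∧ σ <+: τ₂ ∧ τ₁ ≠ τ₂ ∧
    (1 / 2 : ℝ≥0∞) ^ (τ₁.length + (k + 2)) ≤ lam (cyl τ₁ ∩ P) ∧
    (1 / 2 : ℝ≥0∞) ^ (τ₂.length + (k + 2)) ≤ lam (cyl τ₂ ∩ P)

/-- lengths of the coding blocks -/
def ell (k : ℕ) : ℕ := k * (k + 3) / 2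

/-- `τ` is a good extension of `σ` at level `k + 1` -/
def Ext (P : Set (ℕ → Bool)) (σ : List Bool) (k : ℕ) (τ : List Bool) : Prop :=
  τ.length = ell (k + 1) ∧ σ <+: τ ∧ (1 / 2 : ℝ≥0∞) ^ (τ.length + (k + 2)) ≤ lam (cyl τ ∩ P)

/-- K2 (the coding sequence): `sq (k + 1)` is the good extension of `sq k` with the least code if
`A k = false` and with the largest code if `A k = true`. -/
def S_K2 : Prop := ∀ (P : Set (ℕ → Bool)), MeasurableSet P → (1 / 2 : ℝ≥0∞) ≤ lam P →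
  ∀ A : ℕ → Bool, ∃ sq : ℕ → List Bool,
    (∀ k, (sq k).length = ell k) ∧
    (∀ k, Ext P (sq k) k (sq (k + 1))) ∧
    (∀ k, A k = false → (∀ τ, Ext P (sq k) k τ → encode (sq (k + 1)) ≤ encode τ) ∧
      ∃ τ, Ext P (sq k) k τ ∧ encode (sq (k + 1)) < encode τ) ∧
    (∀ k, A k = true → (∀ τ, Ext P (sq k) k τ → encode τ ≤ encode (sq (k + 1))) ∧
      ∃ τ, Ext P (sq k) k τ ∧ encode τ < encode (sq (k + 1)))

/-- K3 (being bad is c.e. in the oracle) -/
def S_K3 : Prop := ∀ E : List Bool × ℕ × List Bool → Prop, S1 E → Mono3 E →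
  ∃ Rf : List Bool × List Bool × ℕ → Prop, S1 Rf ∧
    (∀ α α' τ k, α <+: α' → Rf (α, τ, k) → Rf (α', τ, k)) ∧
    ∀ (B : ℕ → Bool) (τ : List Bool) (k : ℕ),
      (∃ s, Rf (pre B s, τ, k)) ↔
        lam (cyl τ ∩ (UE E B 1)ᶜ) < (1 / 2 : ℝ≥0∞) ^ (τ.length + (k + 1))

/-- K5 (decoding) -/
def S_K5 : Prop := ∀ (A B R : ℕ → Bool) (Rf : List Bool × List Bool × ℕ → Prop), S1 Rf →
  (∀ α α' τ k, α <+: α' → Rf (α, τ, k) → Rf (α', τ, k)) →
  (∀ k, A k = false ↔ ∃ s, ∀ τ : List Bool, τ.length = ell (k + 1) → pre R (ell k) <+: τ →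
    encode τ < encode (pre R (ell (k + 1))) → Rf (pre B s, τ, k + 1)) →
  (∀ k, A k = true ↔ ∃ s, ∀ τ : List Bool, τ.length = ell (k + 1) → pre R (ell k) <+: τ →
    encode (pre R (ell (k + 1))) < encode τ → Rf (pre B s, τ, k + 1)) →
  TLe A (join B R)

/-- the relativised Kučera–Gács theorem -/
def S_KG : Prop := ∀ A B : ℕ → Bool, ∃ R : ℕ → Bool, MLR B R ∧ TLe A (join B R)

/-- OUT: a primitive recursive version of a Turing reduction -/
def S_OUT : Prop := ∀ A X : ℕ → Bool, TLe A X → ∃ out : List Bool → List Bool, Primrec out ∧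
  (∀ k, ∃ n, n ≤ k ∧ out (pre X k) = pre A n) ∧
  (∀ n, ∃ k₀, ∀ k ≥ k₀, pre A n <+: out (pre X k))

/-- ACT: approximation of the complexity of `0^n` from above -/
def S_ACT : Prop := ∀ U : List Bool →. List Bool, IsUniversal U →
  ∃ act : ℕ → ℕ → ℕ → Prop, PrimrecPred (fun x : ℕ × ℕ × ℕ => act x.1 x.2.1 x.2.2) ∧
    (∀ n r s t, s ≤ t → act n r s → act n r t) ∧
    (∀ n r, (∃ s, act n r s) ↔ KU U (List.replicate n false) ≤ r)

/-- WT: the weight of all pairs `(n, r)` with `K(0^n) ≤ r` is at most `2` -/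
def S_WT : Prop := ∀ U : List Bool →. List Bool, IsUniversal U → ∀ F : Finset (ℕ × ℕ),
  (∀ x ∈ F, KU U (List.replicate x.1 false) ≤ x.2) → ∑ x ∈ F, (1 / 2 : ℝ) ^ x.2 ≤ 2

/-- the weight of the strings eaten by the box `(τ, r)` in the list `l` of tokens `(ζ, τ, r)` -/
noncomputable def bw (l : List (List Bool × List Bool × ℕ)) (τ : List Bool) (r : ℕ) : ℝ :=
  ((l.filter fun x => x.2 = (τ, r)).map fun x => (1 / 2 : ℝ) ^ x.1.length).sum

/-- the properties of the eating process `st d e` -/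
def Proc (out : List Bool → List Bool) (act : ℕ → ℕ → ℕ → Prop)
    (st : ℕ → ℕ → List (List Bool × List Bool × ℕ)) : Prop :=
  Primrec₂ st ∧
  (∀ d e, st d e <+: st d (e + 1)) ∧
  (∀ d e, ∀ x ∈ st d e, x.2.1 <+: out x.1 ∧ act x.2.1.length x.2.2 x.1.length) ∧
  (∀ d e, (st d e).Pairwise fun x y => ¬ x.1 <+: y.1 ∧ ¬ y.1 <+: x.1) ∧
  (∀ d e τ r, bw (st d e) τ r ≤ (1 / 2 : ℝ) ^ (r + d)) ∧
  (∀ d (Z : ℕ → Bool), (∀ e, ∀ x ∈ st d e, pre Z x.1.length ≠ x.1) →
    ∀ τ r k, τ <+: out (pre Z k) → act τ.length r k → r + d ≤ k →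
      ∃ e, bw (st d e) τ r = (1 / 2 : ℝ) ^ (r + d))

/-- PROC: the eating process exists -/
def S_PROC : Prop := ∀ (out : List Bool → List Bool) (act : ℕ → ℕ → ℕ → Prop), Primrec out →
  PrimrecPred (fun x : ℕ × ℕ × ℕ => act x.1 x.2.1 x.2.2) →
  ∃ st : ℕ → ℕ → List (List Bool × List Bool × ℕ), Proc out act st

/-- TEST: for some `d` the random set `X` is not eaten by a box belonging to `A` -/
def S_TEST : Prop := S_WT → ∀ U : List Bool →. List Bool, IsUniversal U → ∀ A X : ℕ → Bool, MLR A X →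
  ∀ st : ℕ → ℕ → List (List Bool × List Bool × ℕ), Primrec₂ st →
    (∀ d e, st d e <+: st d (e + 1)) →
    (∀ d e, ∀ x ∈ st d e, KU U (List.replicate x.2.1.length false) ≤ x.2.2) →
    (∀ d e τ r, bw (st d e) τ r ≤ (1 / 2 : ℝ) ^ (r + d)) →
    ∃ d, ∀ e, ∀ x ∈ st d e, x.2.1 = pre A x.2.1.length → pre X x.1.length ≠ x.1

/-- REQ: full boxes give short descriptions -/
def S_REQ : Prop := ∀ U : List Bool →. List Bool, IsUniversal U →
  ∀ st : ℕ → ℕ → List (List Bool × List Bool × ℕ), Primrec₂ st →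
    (∀ d e, st d e <+: st d (e + 1)) →
    (∀ d e, (st d e).Pairwise fun x y => ¬ x.1 <+: y.1 ∧ ¬ y.1 <+: x.1) →
    ∀ d, ∃ c, ∀ τ r, (∃ e, bw (st d e) τ r = (1 / 2 : ℝ) ^ (r + d)) → KU U τ ≤ r + d + c

/-- Hirschfeldt, Nies, Stephan: a set `A` computable from an `A`-random set is K-trivial -/
def S_BASE : Prop := ∀ U : List Bool →. List Bool, IsUniversal U → ∀ A X : ℕ → Bool,
  MLR A X → TLe A X → KTrivial U A

theorem base_of (hOUT : S_OUT) (hACT : S_ACT) (hWT : S_WT) (hPROC : S_PROC) (hTEST : S_TEST)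
    (hREQ : S_REQ) :
    S_BASE := by
  intro U hU A X hX hAX
  obtain ⟨out, hout, ho1, ho2⟩ := hOUT A X hAX
  obtain ⟨act, ha1, ha2, ha3⟩ := hACT U hU
  obtain ⟨st, hst, hmono, hent, hpw, hbw, hfull⟩ := hPROC out act hout ha1
  obtain ⟨d, hd⟩ := hTEST hWT U hU A X hX st hst hmono
    (fun d e x hx => (ha3 _ _).1 ⟨_, (hent d e x hx).2⟩) hbw
  obtain ⟨c, hc⟩ := hREQ U hU st hst hmono hpw d
  have hne : ∀ e, ∀ x ∈ st d e, pre X x.1.length ≠ x.1 := by
    intro e x hx h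
    refine hd e x hx ?_ h
    have h1 := (hent d e x hx).1
    obtain ⟨n, _, hn⟩ := ho1 x.1.length
    rw [h] at hn
    rw [hn] at h1
    exact pre_eq_of_prefix h1
  refine ⟨d + c, fun n => ?_⟩
  obtain ⟨s, hs⟩ := (ha3 n (KU U (List.replicate n false))).2 le_rfl
  obtain ⟨k₀, hk₀⟩ := ho2 n
  have h1 := hfull d X hne (pre A n) (KU U (List.replicate n false))
    (max k₀ (max s (KU U (List.replicate n false) + d)))
    (hk₀ _ (le_max_left _ _))
    (by rw [length_pre]; exact ha2 _ _ _ _ (le_trans (le_max_left _ _) (le_max_right _ _)) hs)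
    (le_trans (le_max_right _ _) (le_max_right _ _))
  have h2 := hc _ _ h1
  have h3 : (List.range n).map A = pre A n := rfl
  rw [h3]
  omega

theorem exists_bound {R : List Bool × List Bool × ℕ → Prop} {B : ℕ → Bool} {k : ℕ}
    (mR : ∀ α α' τ k, α <+: α' → R (α, τ, k) → R (α', τ, k)) (L : List (List Bool))
    (h : ∀ τ ∈ L, ∃ s, R (pre B s, τ, k)) : ∃ s, ∀ τ ∈ L, R (pre B s, τ, k) := by
  induction L with
  | nil => exact ⟨0, by simp⟩
  | cons a L ih =>
    obtain ⟨s, hs⟩ := ih fun τ hτ => h τ (List.mem_cons_of_mem _ hτ)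
    obtain ⟨s', hs'⟩ := h a List.mem_cons_self
    refine ⟨max s s', fun τ hτ => ?_⟩
    rcases List.mem_cons.1 hτ with rfl | hτ
    · exact mR _ _ _ _ (pre_prefix B (le_max_right _ _)) hs'
    · exact mR _ _ _ _ (pre_prefix B (le_max_left _ _)) (hs τ hτ)

theorem kg_of (hK2 : S_K2) (hK3 : S_K3) (hK5 : S_K5) : S_KG := by
  intro A B
  obtain ⟨E, hE, mE, hEm, hEU⟩ := exists_universal
  obtain ⟨P, hPdef⟩ : ∃ P : Set (ℕ → Bool), P = (UE E B 1)ᶜ := ⟨_, rfl⟩
  have hP : MeasurableSet P := hPdef ▸ (measurableSet_UE E B 1).compl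
  have hPm : (1 / 2 : ℝ≥0∞) ≤ lam P := by
    rw [hPdef, measure_compl (measurableSet_UE E B 1) (measure_ne_top _ _), measure_univ]
    have h := hEm B 1
    rw [pow_one] at h
    have h2 : (1 : ℝ≥0∞) - 1 / 2 = 1 / 2 := by
      rw [one_div]; exact ENNReal.one_sub_inv_two
    rw [← h2]
    exact tsub_le_tsub_left h 1
  obtain ⟨sq, h1, h2, h3, h4⟩ := hK2 _ hP hPm A
  obtain ⟨Rf, hRf, mRf, eRf⟩ := hK3 E hE mE
  have hell : ∀ k, k ≤ ell k := by
    intro k
    unfold ell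
    rw [Nat.le_div_iff_mul_le (by norm_num)]
    nlinarith
  have hchain : ∀ k m, k ≤ m → sq k <+: sq m := by
    intro k m h
    induction h with
    | refl => exact List.prefix_refl _
    | step _ ih => exact ih.trans (h2 _).2.1
  obtain ⟨R, hRdef⟩ : ∃ R : ℕ → Bool, R = fun i => (sq (i + 1)).getD i false := ⟨_, rfl⟩
  have hR : ∀ k, pre R (ell k) = sq k := by
    intro k
    refine List.ext_getElem (by rw [length_pre, h1]) fun i hi hi' => ?_
    rw [getElem_pre, hRdef]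
    have hlt : i < (sq (i + 1)).length := by
      rw [h1]; exact lt_of_lt_of_le (Nat.lt_succ_self i) (hell (i + 1))
    simp only [List.getD_eq_getElem _ _ hlt]
    rcases Nat.le_total k (i + 1) with h | h
    · exact ((hchain k (i + 1) h).getElem hi').symm
    · exact ((hchain (i + 1) k h).getElem hlt)
  have hRP : R ∉ UE E B 1 := by
    rintro ⟨s, t, hst⟩
    have h5 : cyl (sq (t + 1)) ⊆ UE E B 1 := by
      intro Z hZ
      rw [mem_cyl_iff] at hZ
      have hlen : t ≤ (sq (t + 1)).length := by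
        rw [h1]; exact le_trans (Nat.le_succ t) (hell (t + 1))
      refine ⟨s, (sq (t + 1)).length, ?_⟩
      rw [hZ, ← hR]
      refine mE _ _ _ _ _ (List.prefix_refl _) (pre_prefix R ?_) hst
      rw [h1] at hlen; exact hlen
    have h6 := (h2 t).2.2
    have h7 : cyl (sq (t + 1)) ∩ P = ∅ := by
      rw [hPdef, ← Set.sdiff_eq, Set.sdiff_eq_empty.2 h5]
    rw [h7, measure_empty] at h6
    exact absurd h6 (by
      rw [not_le]
      exact ENNReal.pow_pos (by norm_num) _)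
  refine ⟨R, (hEU B R).2 ⟨1, hRP⟩, ?_⟩
  have hbad : ∀ τ k, (∃ s, Rf (pre B s, τ, k)) ↔
      lam (cyl τ ∩ P) < (1 / 2 : ℝ≥0∞) ^ (τ.length + (k + 1)) := by
    intro τ k
    rw [eRf, hPdef]
  refine hK5 A B R Rf hRf mRf ?_ ?_
  · intro k
    constructor
    · intro hA
      obtain ⟨h5, -⟩ := h3 k hA
      obtain ⟨s, hs⟩ := exists_bound (B := B) (k := k + 1) mRf
        ((allStr (ell (k + 1))).filter fun τ => pre R (ell k) <+: τ ∧
          encode τ < encode (pre R (ell (k + 1)))) (by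
          intro τ hτ
          simp only [List.mem_filter, mem_allStr, decide_eq_true_eq] at hτ
          obtain ⟨hl, hp, hlt⟩ := hτ
          rw [hbad]
          by_contra hcon
          rw [not_lt] at hcon
          rw [hR] at hp hlt
          have := h5 τ ⟨hl, hp, hcon⟩
          omega)
      refine ⟨s, fun τ hl hp hlt => hs τ ?_⟩
      simp only [List.mem_filter, mem_allStr, decide_eq_true_eq]
      exact ⟨hl, hp, hlt⟩
    · rintro ⟨s, hs⟩
      by_contra hA
      have hA' : A k = true := by simpa using hA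
      obtain ⟨-, τ, ⟨hl, hp, hg⟩, hlt⟩ := h4 k hA'
      have h5 := (hbad τ (k + 1)).1 ⟨s, hs τ hl (by rw [hR]; exact hp) (by rw [hR]; exact hlt)⟩
      exact absurd hg (not_le.2 h5)
  · intro k
    constructor
    · intro hA
      obtain ⟨h5, -⟩ := h4 k hA
      obtain ⟨s, hs⟩ := exists_bound (B := B) (k := k + 1) mRf
        ((allStr (ell (k + 1))).filter fun τ => pre R (ell k) <+: τ ∧
          encode (pre R (ell (k + 1))) < encode τ) (by
          intro τ hτ
          simp only [List.mem_filter, mem_allStr, decide_eq_true_eq] at hτ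
          obtain ⟨hl, hp, hlt⟩ := hτ
          rw [hbad]
          by_contra hcon
          rw [not_lt] at hcon
          rw [hR] at hp hlt
          have := h5 τ ⟨hl, hp, hcon⟩
          omega)
      refine ⟨s, fun τ hl hp hlt => hs τ ?_⟩
      simp only [List.mem_filter, mem_allStr, decide_eq_true_eq]
      exact ⟨hl, hp, hlt⟩
    · rintro ⟨s, hs⟩
      by_contra hA
      have hA' : A k = false := by simpa using hA
      obtain ⟨-, τ, ⟨hl, hp, hg⟩, hlt⟩ := h3 k hA'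
      have h5 := (hbad τ (k + 1)).1 ⟨s, hs τ hl (by rw [hR]; exact hp) (by rw [hR]; exact hlt)⟩
      exact absurd hg (not_le.2 h5)

theorem main_of (hKG : S_KG) (hBASE : S_BASE) (U : List Bool →. List Bool) (hU : IsUniversal U)
    (A B : ℕ → Bool) (hLR : ∀ X, MLR B X → MLR (join A B) X) (hB : MLR A B) : KTrivial U A := by
  obtain ⟨R, hR, hA⟩ := hKG A B
  exact hBASE U hU A (join B R) (MLR.join_of hB (hLR R hR)) hA

end Pool.Agent.H552R3.KG
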